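import Pool.Agent.Work.MP_1aab6d_co_w.Layers

/-!
# Ground states on regions with few petal edges, as functions of the petal colours
-/

set_option autoImplicit false

namespace UnfW

open Finset Classical Unf UnfL

variable {V : Type*}

/-- The regions `κ v`, `v ∈ S`, are pairwise equal or separated, and each of them has finitely many
vertices with a neighbour in `P`. -/
structure Calm (Γ : SimpleGraph V) (S P : Set V) (κ : V → Set V) : Prop where
  fin : ∀ x ∈ S, ¬ Inf Γ x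
  dis : ∀ x ∈ S, x ∉ P
  self : ∀ v ∈ S, v ∈ κ v
  sub : ∀ v ∈ S, ∀ a ∈ κ v, a ∈ S
  eq : ∀ v ∈ S, ∀ a ∈ κ v, κ a = κ v
  adj : ∀ v ∈ S, ∀ a ∈ κ v, ∀ b ∈ S, Γ.Adj a b → b ∈ κ v
  kept : ∀ v ∈ S, {a | a ∈ κ v ∧ ∃ u ∈ P, Γ.Adj a u}.Finite
  pet : ∀ u ∈ P, {v | v ∈ S ∧ Γ.Adj u v}.Finite

section

variable (Γ : SimpleGraph V) (S P : Set V) (κ : V → Set V) (φ : V → Bool)

/-- The colouring `φ` with the petal colours `z`. -/
noncomputable def base (z : V → Bool) : V → Bool := fun v => if v ∈ P then z v else φ v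

/-- The petals adjacent to `C`. -/
def Par (C : Set V) : Set V := {u | u ∈ P ∧ ∃ a ∈ C, Γ.Adj a u}

/-- Restriction of the petal colours to the petals adjacent to `C`. -/
noncomputable def rsS (C : Set V) (z : V → Bool) : V → Bool :=
  fun v => if v ∈ Par Γ P C then z v else false

/-- The chosen modification on the region `C`. -/
noncomputable def qq (C : Set V) (z : V → Bool) : Finset V :=
  if h : ∃ Q : Finset V, (∀ x ∈ Q, x ∈ C) ∧
    ∀ D : Finset V, (∀ x ∈ D, x ∈ C) → 0 ≤ E Γ (flp (base P φ z) Q) D then h.choose else ∅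

/-- The colouring as a function of the petal colours. -/
noncomputable def Cx (z : V → Bool) : V → Bool := fun v =>
  if v ∈ S then flp (base P φ z) (qq Γ P φ (κ v) (rsS Γ P (κ v) z)) v else base P φ z v

end

variable {Γ : SimpleGraph V} {S P : Set V} {κ : V → Set V} {φ : V → Bool}

lemma rsS_congr {C : Set V} {z z' : V → Bool} (h : ∀ v ∈ Par Γ P C, z v = z' v) :
    rsS Γ P C z = rsS Γ P C z' := by
  funext v
  unfold rsS
  split_ifs with hv
  · exact h v hv
  · rfl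

lemma qq_sub {C : Set V} {z : V → Bool} : ∀ x ∈ qq Γ P φ C z, x ∈ C := by
  intro x hx
  unfold qq at hx
  split_ifs at hx with h
  · exact h.choose_spec.1 x hx
  · exact absurd hx (Finset.notMem_empty x)

lemma Calm.par_finite (h : Calm Γ S P κ) {v : V} (hv : v ∈ S) : (Par Γ P (κ v)).Finite := by
  refine (((h.kept v hv).toFinset.biUnion (fun a => nb Γ a)).finite_toSet).subset ?_
  rintro u ⟨hu, a, ha, hau⟩
  rw [Finset.mem_coe, mem_biUnion]
  refine ⟨a, ?_, (mem_nb Γ (h.fin a (h.sub v hv a ha))).2 hau⟩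
  rw [Set.Finite.mem_toFinset]
  exact ⟨ha, u, hu, hau⟩

lemma Calm.base_S (h : Calm Γ S P κ) {z : V → Bool} {v : V} (hv : v ∈ S) : base P φ z v = φ v :=
  if_neg (h.dis v hv)

theorem Calm.defect (h : Calm Γ S P κ) (hφ : ∀ D : Finset V, (∀ x ∈ D, x ∈ S) → 0 ≤ E Γ φ D)
    {v : V} (hv : v ∈ S) (z : V → Bool) :
    ∃ M : ℤ, ∀ Q : Finset V, (∀ x ∈ Q, x ∈ κ v) → -M ≤ E Γ (base P φ z) Q := by
  set A0 := (h.kept v hv).toFinset with hA0
  refine ⟨∑ a ∈ A0, 2 * ((nb Γ a).card : ℤ), fun Q hQ => ?_⟩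
  have hQS : ∀ x ∈ Q, x ∈ S := fun x hx => h.sub v hv x (hQ x hx)
  have h1 : ∀ x ∈ Q, ∑ y ∈ nb Γ x \ Q, eps Set.univ φ x y
      - (if x ∈ A0 then 2 * ((nb Γ x).card : ℤ) else 0)
      ≤ ∑ y ∈ nb Γ x \ Q, eps Set.univ (base P φ z) x y := by
    intro x hx
    have hxS := hQS x hx
    by_cases hxA : x ∈ A0
    · rw [if_pos hxA]
      have h2 : ∑ y ∈ nb Γ x \ Q, (eps Set.univ φ x y - 2)
          ≤ ∑ y ∈ nb Γ x \ Q, eps Set.univ (base P φ z) x y := by
        refine Finset.sum_le_sum fun y _ => ?_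
        have a1 := eps_le_one Set.univ φ x y
        have a2 := neg_one_le_eps Set.univ (base P φ z) x y
        linarith
      rw [Finset.sum_sub_distrib, Finset.sum_const, nsmul_eq_mul] at h2
      have h3 : ((nb Γ x \ Q).card : ℤ) ≤ (nb Γ x).card := by
        exact_mod_cast Finset.card_le_card Finset.sdiff_subset
      linarith
    · rw [if_neg hxA, sub_zero]
      refine le_of_eq (Finset.sum_congr rfl fun y hy => ?_)
      rw [mem_sdiff, mem_nb Γ (h.fin x hxS)] at hy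
      have hyP : y ∉ P := by
        intro hyP
        refine hxA ?_
        rw [hA0, Set.Finite.mem_toFinset]
        exact ⟨hQ x hx, y, hyP, hy.1⟩
      unfold eps base
      rw [if_neg hyP, if_neg (h.dis x hxS)]
  have h2 := Finset.sum_le_sum h1
  rw [Finset.sum_sub_distrib] at h2
  have h3 : ∑ x ∈ Q, (if x ∈ A0 then 2 * ((nb Γ x).card : ℤ) else 0)
      ≤ ∑ a ∈ A0, 2 * ((nb Γ a).card : ℤ) := by
    rw [← Finset.sum_filter]
    refine Finset.sum_le_sum_of_subset_of_nonneg (fun x hx => (mem_filter.1 hx).2) ?_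
    intro a _ _
    positivity
  have h4 := hφ Q hQS
  have h5 : E Γ φ Q = ∑ x ∈ Q, ∑ y ∈ nb Γ x \ Q, eps Set.univ φ x y := rfl
  have h6 : E Γ (base P φ z) Q = ∑ x ∈ Q, ∑ y ∈ nb Γ x \ Q, eps Set.univ (base P φ z) x y := rfl
  rw [h6]
  rw [h5] at h4
  linarith

theorem Calm.qq_spec (h : Calm Γ S P κ) (hφ : ∀ D : Finset V, (∀ x ∈ D, x ∈ S) → 0 ≤ E Γ φ D)
    {v : V} (hv : v ∈ S) (z : V → Bool) {D : Finset V} (hD : ∀ x ∈ D, x ∈ κ v) :
    0 ≤ E Γ (flp (base P φ z) (qq Γ P φ (κ v) z)) D := by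
  obtain ⟨M, hM⟩ := h.defect hφ hv z
  have h1 := fix_in (Γ := Γ) (C := κ v) (fun x hx => h.fin x (h.sub v hv x hx)) M hM
  have h2 : qq Γ P φ (κ v) z = h1.choose := dif_pos h1
  rw [h2]
  exact h1.choose_spec.2 D hD

lemma Cx_petal (h : Calm Γ S P κ) {z : V → Bool} {u : V} (hu : u ∈ P) : Cx Γ S P κ φ z u = z u := by
  unfold Cx
  rw [if_neg (fun hS => h.dis u hS hu)]
  exact if_pos hu

lemma Cx_out {z : V → Bool} {v : V} (hv : v ∉ S) (hvP : v ∉ P) : Cx Γ S P κ φ z v = φ v := by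
  unfold Cx
  rw [if_neg hv]
  exact if_neg hvP

lemma Cx_local (h : Calm Γ S P κ) (v : V) : ∃ W : Finset V, ∀ z z' : V → Bool,
    (∀ s ∈ W, z s = z' s) → Cx Γ S P κ φ z v = Cx Γ S P κ φ z' v := by
  by_cases hv : v ∈ S
  · refine ⟨(h.par_finite hv).toFinset, fun z z' hzz => ?_⟩
    have h1 : rsS Γ P (κ v) z = rsS Γ P (κ v) z' :=
      rsS_congr fun w hw => hzz w ((Set.Finite.mem_toFinset _).2 hw)
    unfold Cx
    rw [if_pos hv, if_pos hv, h1]
    unfold flp
    rw [h.base_S hv, h.base_S hv]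
  · refine ⟨{v}, fun z z' hzz => ?_⟩
    unfold Cx base
    rw [if_neg hv, if_neg hv, hzz v (Finset.mem_singleton_self v)]

lemma Cx_finite (h : Calm Γ S P κ) {j : V} (hj : j ∈ P) (z : V → Bool) :
    {v | Cx Γ S P κ φ (Function.update z j (!(z j))) v ≠ Cx Γ S P κ φ z v}.Finite := by
  set z' := Function.update z j (!(z j)) with hz'
  have h1 : (⋃ a ∈ {v | v ∈ S ∧ Γ.Adj j v}, ((qq Γ P φ (κ a) (rsS Γ P (κ a) z) ∪
      qq Γ P φ (κ a) (rsS Γ P (κ a) z') : Finset V) : Set V)).Finite :=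
    (h.pet j hj).biUnion fun a _ => Finset.finite_toSet _
  refine ((Set.finite_singleton j).union h1).subset ?_
  intro v hv
  have hv0 : Cx Γ S P κ φ z' v ≠ Cx Γ S P κ φ z v := hv
  by_cases hvS : v ∈ S
  · right
    by_cases hjP : j ∈ Par Γ P (κ v)
    · obtain ⟨_, a, ha, haj⟩ := hjP
      refine Set.mem_biUnion (show a ∈ {v | v ∈ S ∧ Γ.Adj j v} from
        ⟨h.sub v hvS a ha, haj.symm⟩) ?_
      rw [h.eq v hvS a ha, Finset.mem_coe, mem_union]
      by_contra hn
      rw [not_or] at hn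
      refine hv0 ?_
      unfold Cx
      rw [if_pos hvS, if_pos hvS, flp_of_not_mem hn.1, flp_of_not_mem hn.2, h.base_S hvS,
        h.base_S hvS]
    · exfalso
      refine hv0 ?_
      have h2 : rsS Γ P (κ v) z' = rsS Γ P (κ v) z := by
        refine rsS_congr fun w hw => ?_
        rw [hz', Function.update_of_ne]
        rintro rfl
        exact hjP hw
      unfold Cx
      rw [if_pos hvS, if_pos hvS, h2]
      unfold flp
      rw [h.base_S hvS, h.base_S hvS]
  · left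
    rw [Set.mem_singleton_iff]
    by_contra hvj
    refine hv0 ?_
    unfold Cx base
    rw [if_neg hvS, if_neg hvS, hz', Function.update_of_ne hvj]

theorem Cx_ground_comp (h : Calm Γ S P κ)
    (hφ : ∀ D : Finset V, (∀ x ∈ D, x ∈ S) → 0 ≤ E Γ φ D) (z : V → Bool) {v : V} (hv : v ∈ S)
    {D : Finset V} (hD : ∀ x ∈ D, x ∈ κ v) : 0 ≤ E Γ (Cx Γ S P κ φ z) D := by
  set z0 := rsS Γ P (κ v) z with hz0
  set Q0 := qq Γ P φ (κ v) z0 with hQ0
  have hQS : ∀ x ∈ Q0, x ∈ S := fun x hx => h.sub v hv x (qq_sub x hx)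
  have hin : ∀ x ∈ κ v, Cx Γ S P κ φ z x = flp (base P φ z0) Q0 x := by
    intro x hx
    have hxS := h.sub v hv x hx
    unfold Cx
    rw [if_pos hxS, h.eq v hv x hx]
    unfold flp
    rw [h.base_S hxS, h.base_S hxS]
  have e1 : E Γ (Cx Γ S P κ φ z) D = E Γ (flp (base P φ z0) Q0) D := by
    refine E_congr (fun x hx => hin x (hD x hx)) fun x hx y hy => ?_
    have hxS := h.sub v hv x (hD x hx)
    rw [mem_nb Γ (h.fin x hxS)] at hy
    by_cases hyS : y ∈ S
    · exact hin y (h.adj v hv x (hD x hx) y hyS hy)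
    · rw [flp_of_not_mem (fun hyQ => hyS (hQS y hyQ))]
      by_cases hyP : y ∈ P
      · have hyPar : y ∈ Par Γ P (κ v) := ⟨hyP, x, hD x hx, hy⟩
        rw [Cx_petal h hyP]
        show z y = if y ∈ P then z0 y else φ y
        rw [if_pos hyP]
        exact (if_pos hyPar).symm
      · rw [Cx_out hyS hyP]
        exact (if_neg hyP).symm
  rw [e1]
  exact h.qq_spec hφ hv z0 hD

theorem Cx_ground (h : Calm Γ S P κ)
    (hφ : ∀ D : Finset V, (∀ x ∈ D, x ∈ S) → 0 ≤ E Γ φ D) (z : V → Bool) (n : ℕ) :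
    ∀ D : Finset V, D.card ≤ n → (∀ x ∈ D, x ∈ S) → 0 ≤ E Γ (Cx Γ S P κ φ z) D := by
  induction n with
  | zero =>
    intro D hD _
    have : D = ∅ := Finset.card_eq_zero.1 (Nat.le_zero.1 hD)
    rw [this]
    exact le_of_eq (en_empty _).symm
  | succ n ih =>
    intro D hDn hD
    rcases D.eq_empty_or_nonempty with rfl | ⟨v, hv⟩
    · exact le_of_eq (en_empty _).symm
    have hvS := hD v hv
    set D1 := D.filter (· ∈ κ v) with hD1
    set D2 := D.filter (· ∉ κ v) with hD2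
    have hU : D = D1 ∪ D2 := (Finset.filter_union_filter_not_eq (· ∈ κ v) D).symm
    have hdis : Disjoint D1 D2 := by
      rw [Finset.disjoint_left]
      intro x hx hx'
      exact (mem_filter.1 hx').2 (mem_filter.1 hx).2
    have hc2 : D2.card ≤ n := by
      have h1 : D2 ⊂ D := by
        rw [Finset.ssubset_iff_of_subset (Finset.filter_subset _ _)]
        exact ⟨v, hv, fun h' => (mem_filter.1 h').2 (h.self v hvS)⟩
      have := Finset.card_lt_card h1
      omega
    rw [hU, E_union_sep hdis (fun x hx => h.fin x (hD x (mem_filter.1 hx).1))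
      (fun x hx => h.fin x (hD x (mem_filter.1 hx).1))]
    · exact add_nonneg (Cx_ground_comp h hφ z hvS fun x hx => (mem_filter.1 hx).2)
        (ih D2 hc2 fun x hx => hD x (mem_filter.1 hx).1)
    · intro x hx y hy hxy
      exact (mem_filter.1 hy).2 (h.adj v hvS x (mem_filter.1 hx).2 y
        (hD y (mem_filter.1 hy).1) hxy)

end UnfW
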