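import Pool.Agent.Work.MP_1aab6d_co_w.Main
import Pool.Agent.Work.MP_1aab6d_co_ev.Main
import Pool.Agent.Work.MP_1aab6d_co_tu.Main

/-!
# The earlier theorems follow
-/

set_option autoImplicit false

namespace UnfW

open Finset Classical Unf UnfL

variable {V : Type*}

theorem even_case [Countable V] (G : SimpleGraph V) (X T : Set V) (hX : X.Finite)
    (hT : ∀ v ∈ T, ¬ Inf G v) (hTc : ∀ v ∈ T, ∀ w, G.Adj v w → ¬ Inf G w → w ∈ T)
    (hodd : ∀ u, Inf G u → u ∉ X → {v | G.Adj u v ∧ v ∈ T ∧ ¬ Even (G.neighborSet v).ncard}.Finite)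
    (hpair : ∀ u u', Inf G u → Inf G u' → u ∉ X → u' ∉ X → u ≠ u' →
      {v | G.Adj u v ∧ G.Adj u' v ∧ v ∈ T}.Finite)
    (h : {u | Inf G u ∧ ¬ {x | G.Adj u x ∧ (Inf G x ∨ x ∈ T)}.Infinite}.Finite) :
    ∃ c : V → Bool, Unfriendly G c := by
  obtain ⟨f, hf⟩ := exists_injective_nat V
  have hH := UnfE.hyp hf hT hodd hpair
  have hsub : ∀ v, {w | UnfE.Ow G X T f v w}.Subsingleton := by
    intro v a ha b hb
    refine hf (le_antisymm ?_ ?_)
    · exact ha.2.2.2.2.2 b hb.2.2.1 hb.2.2.2.1 hb.2.2.2.2.1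
    · exact hb.2.2.2.2.2 a ha.2.2.1 ha.2.2.2.1 ha.2.2.2.2.1
  refine main G X T (fun v => {w | UnfE.Ow G X T f v w}) hX hT hTc ?_ ?_ ?_ ?_ h
  · intro v _ w hw
    exact ⟨hw.2.2.1, hw.2.2.2.1, hw.2.2.2.2.1⟩
  · intro v _
    exact Or.inl (Set.encard_le_one_iff_subsingleton.2 (hsub v))
  · intro u hu huX
    refine (hH.pet u ⟨hu, huX⟩).subset ?_
    rintro v ⟨h1, h2, h3⟩
    exact ⟨h2, h1, fun h4 => hT u h4.1 hu, h3⟩
  · intro v _
    right
    rintro a _ ⟨_, ⟨w, hw⟩, h3⟩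
    exfalso
    have h4 : {w | UnfE.Ow G X T f a w} = {w} := (hsub a).eq_singleton_of_mem hw
    have h5 : Even ((G.neighborSet a).ncard + ({w | UnfE.Ow G X T f a w}).ncard) := h3
    rw [h4, Set.ncard_singleton, Nat.even_add_one] at h5
    exact h5 hw.2.1

theorem almost_disjoint_case [Countable V] (G : SimpleGraph V) (X : Set V) (hX : X.Finite)
    (hpair : ∀ u u', Inf G u → Inf G u' → u ∉ X → u' ∉ X → u ≠ u' →
      {v | G.Adj u v ∧ G.Adj u' v ∧ UnfT.Calm G X v ∧ ¬ UnfT.Light G X v}.Finite)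
    (h : {u | Inf G u ∧ ¬ {x | G.Adj u x ∧ (Inf G x ∨ UnfT.Calm G X x)}.Infinite}.Finite) :
    ∃ c : V → Bool, Unfriendly G c := by
  obtain ⟨f, hf⟩ := exists_injective_nat V
  refine main G X {x | UnfT.Calm G X x} (UnfT.Own G X f) hX (fun v hv => hv.1)
    (fun v hv w hvw hw => UnfT.Calm.of_adj hv hvw hw) ?_ ?_ ?_ ?_ h
  · intro v _ w hw
    exact UnfT.own_sub hw
  · intro v _
    exact UnfT.own_light hf v
  · intro u hu huX
    have h1 : {u' | f u' < f u}.Finite := (Set.finite_lt_nat (f u)).preimage hf.injOn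
    have h2 : (⋃ u' ∈ {u' | f u' < f u}, {v | G.Adj u v ∧ G.Adj u' v ∧ Inf G u' ∧ u' ∉ X ∧
        UnfT.Calm G X v ∧ ¬ UnfT.Light G X v}).Finite := by
      refine h1.biUnion fun u' hu' => ?_
      by_cases h3 : Inf G u' ∧ u' ∉ X
      · refine (hpair u u' hu h3.1 huX h3.2 ?_).subset ?_
        · rintro rfl
          exact lt_irrefl (f u) hu'
        · rintro v ⟨a, b, _, _, c, d⟩
          exact ⟨a, b, c, d⟩
      · refine Set.finite_empty.subset ?_
        rintro v ⟨_, _, c, d, _⟩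
        exact h3 ⟨c, d⟩
    refine h2.subset ?_
    rintro v ⟨hadj, hcalm, hown⟩
    have hIN : u ∈ UnfT.IN G X v := ⟨hadj.symm, hu, huX⟩
    have hnl : ¬ UnfT.Light G X v := UnfT.kept_nonlight hIN hown
    have : ∃ w ∈ UnfT.IN G X v, f w < f u := by
      by_contra hcon
      push Not at hcon
      exact hown ⟨hIN, Or.inr hcon⟩
    obtain ⟨w, hw, hlt⟩ := this
    exact Set.mem_biUnion (show w ∈ {u' | f u' < f u} from hlt)
      ⟨hadj, hw.1.symm, hw.2.1, hw.2.2, hcalm, hnl⟩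
  · intro v hv
    left
    refine hv.2.subset ?_
    rintro a ⟨ha, hna⟩
    refine ⟨ha, fun hl => hna fun w hw => ?_⟩
    by_contra hown
    exact UnfT.kept_nonlight hw hown hl

end UnfW
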