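import Pool.Agent.Work.MP_1aab6d_co.Defs

/-!
# Owners and critical vertices
-/

set_option autoImplicit false

namespace UnfW

variable {V : Type*} (G : SimpleGraph V)

/-- The neighbours of infinite degree of `v` outside `X`. -/
def IN (X : Set V) (v : V) : Set V := {w | G.Adj v w ∧ Unf.Inf G w ∧ w ∉ X}

/-- The critical vertices: the vertices `v` of `T` with `O v` nonempty and `deg v + |O v|` even. -/
def Crit (T : Set V) (O : V → Set V) : Set V :=
  {v | v ∈ T ∧ (O v).Nonempty ∧ Even ((G.neighborSet v).ncard + (O v).ncard)}

/-- The vertices which can be reached from `v` on paths all of whose vertices after `v` are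
critical.  If `v` is critical, this is the component of `v` in the subgraph induced by the critical
vertices. -/
def Cluster (T : Set V) (O : V → Set V) (v : V) : Set V :=
  {a | Relation.ReflTransGen (fun p q => G.Adj p q ∧ q ∈ Crit G T O) v a}

end UnfW
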