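import Pool.Agent.Work.MP_1aab6d_co_w.Layers
import Pool.Agent.Work.MP_1aab6d_co_ev.Abs

/-!
# The multi-scale dynamics

`P` is the set of petals, numbered by the injective function `f`; every petal has finitely many
neighbours in `T`.  At scale `k` the petal of number `k` may be flipped, and the colouring is
repaired inside `B (k + 1)`.
-/

set_option autoImplicit false

namespace UnfW

open Finset Classical Unf UnfL

variable {V : Type*}

lemma cont_of_local {β : Type*} [TopologicalSpace β] (h : (V → Bool) → β) (W : Finset V)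
    (hW : ∀ y y' : V → Bool, (∀ v ∈ W, y v = y' v) → h y = h y') : Continuous h := by
  refine IsLocallyConstant.continuous ?_
  rw [IsLocallyConstant.iff_exists_open]
  intro x
  refine ⟨{y | ∀ v ∈ W, y v = x v}, ?_, fun v _ => rfl, fun y hy => hW y x hy⟩
  have : {y : V → Bool | ∀ v ∈ W, y v = x v} = ⋂ v ∈ W, {y | y v = x v} := by
    ext y; simp
  rw [this]
  refine isOpen_biInter_finset fun v _ => ?_
  exact isOpen_discrete ({x v} : Set Bool) |>.preimage (f := fun y : V → Bool => y v)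
    (continuous_apply v)

section

variable (Γ : SimpleGraph V) (T P : Set V) (K : V → Finset V) (f : V → ℕ)

/-- The neighbours in `T` of the petal of number `k`. -/
noncomputable def Kn (k : ℕ) : Finset V := fs {v | v ∈ T ∧ ∃ u ∈ P, f u = k ∧ Γ.Adj u v}

/-- The vertex of `T` of number `k`. -/
noncomputable def Vk (k : ℕ) : Finset V := fs {v | v ∈ T ∧ f v = k}

/-- Sum of the numbers of neighbours. -/
noncomputable def sd (k : ℕ) : ℕ := ∑ l ∈ range (k + 1), (Kn Γ T P f l).card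

/-- The number of layers at scale `k`. -/
noncomputable def Mk (k : ℕ) : ℕ := 2 * (2 * sd Γ T P f k + k) + 2

/-- The exhaustion of `T`. -/
noncomputable def Bk : ℕ → Finset V
  | 0 => ∅
  | k + 1 => Ly Γ T K (Mk Γ T P f k) (Bk k ∪ Kn Γ T P f k) ∪ Vk T f k

/-- States of level `k`. -/
def St (k : ℕ) (y : V → Bool) : Prop :=
  (∀ D ⊆ Bk Γ T P K f k, 0 ≤ E Γ y D) ∧ CG Γ T K y ∧ (∀ u ∈ P, f u < k → y u = false) ∧
    ∀ v, v ∉ T → v ∉ P → y v = false

/-- Give the petal of number `k` the colour `true`. -/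
noncomputable def s1 (k : ℕ) (y : V → Bool) : V → Bool :=
  fun v => if v ∈ P ∧ f v = k then true else y v

/-- The set flipped in the repair. -/
noncomputable def Dk (k : ℕ) (y : V → Bool) : Finset V × ℕ :=
  Rc Γ T K (Bk Γ T P K f k ∪ Kn Γ T P f k) (Mk Γ T P f k) (s1 P f k y)

/-- One step. -/
noncomputable def step (k : ℕ) (b : Bool) (y : V → Bool) : V → Bool :=
  if b = true then flp (s1 P f k y) (Dk Γ T P K f k y).1 else y

/-- Several steps, from level `l + n` down to level `l`. -/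
noncomputable def down (b : ℕ → Bool) (y : V → Bool) : ℕ → ℕ → V → Bool
  | _, 0 => y
  | l, n + 1 => step Γ T P K f l (b l) (down b y (l + 1) n)

/-- Consistent sequences of states. -/
def TH : Set ((ℕ → Bool) × (ℕ → V → Bool)) :=
  {p | ∀ k, St Γ T P K f k (p.2 k) ∧ p.2 k = step Γ T P K f k (p.1 k) (p.2 (k + 1))}

/-- Toggle the choice at scale `k`. -/
noncomputable def tog (k : ℕ) (p : (ℕ → Bool) × (ℕ → V → Bool)) :
    (ℕ → Bool) × (ℕ → V → Bool) :=
  (Function.update p.1 k (!(p.1 k)), fun l => if l ≤ k then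
    down Γ T P K f (Function.update p.1 k (!(p.1 k))) (p.2 (k + 1)) l (k + 1 - l) else p.2 l)

end

/-- The standing hypotheses. -/
structure Hyp (Γ : SimpleGraph V) (T P : Set V) (K : V → Finset V) (f : V → ℕ) : Prop where
  inj : Function.Injective f
  clu : Clu Γ T K
  dis : ∀ x ∈ T, x ∉ P
  pet : ∀ u ∈ P, {v | v ∈ T ∧ Γ.Adj u v}.Finite

variable {Γ : SimpleGraph V} {T P : Set V} {K : V → Finset V} {f : V → ℕ}

lemma Hyp.fin (h : Hyp Γ T P K f) : ∀ x ∈ T, ¬ Inf Γ x := h.clu.fin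

lemma Hyp.kn_fin (h : Hyp Γ T P K f) (k : ℕ) :
    {v | v ∈ T ∧ ∃ u ∈ P, f u = k ∧ Γ.Adj u v}.Finite := by
  by_cases hk : ∃ u ∈ P, f u = k
  · obtain ⟨u, hu, hk⟩ := hk
    refine (h.pet u hu).subset ?_
    rintro v ⟨hv, u', hu', hk', ha⟩
    have : u' = u := h.inj (hk'.trans hk.symm)
    rw [this] at ha
    exact ⟨hv, ha⟩
  · refine Set.finite_empty.subset ?_
    rintro v ⟨hv, u', hu', hk', ha⟩
    exact hk ⟨u', hu', hk'⟩

lemma Hyp.mem_kn (h : Hyp Γ T P K f) {k : ℕ} {v : V} :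
    v ∈ Kn Γ T P f k ↔ v ∈ T ∧ ∃ u ∈ P, f u = k ∧ Γ.Adj u v := mem_fs (h.kn_fin k)

lemma Hyp.mem_vk (h : Hyp Γ T P K f) {k : ℕ} {v : V} : v ∈ Vk T f k ↔ v ∈ T ∧ f v = k := by
  refine mem_fs (Set.Subsingleton.finite ?_)
  rintro a ⟨_, ha⟩ b ⟨_, hb⟩
  exact h.inj (ha.trans hb.symm)

lemma kn_sub {k : ℕ} : ∀ v ∈ Kn Γ T P f k, v ∈ T := fun _ hv => (fs_sub hv).1

lemma Hyp.bk_sub (h : Hyp Γ T P K f) (k : ℕ) : ∀ v ∈ Bk Γ T P K f k, v ∈ T := by
  induction k with
  | zero => intro v hv; exact absurd hv (Finset.notMem_empty v)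
  | succ k ih =>
    intro v hv
    have hv' : v ∈ Ly Γ T K (Mk Γ T P f k) (Bk Γ T P K f k ∪ Kn Γ T P f k) ∪ Vk T f k := hv
    rw [mem_union] at hv'
    rcases hv' with h' | h'
    · refine h.clu.ly_sub (fun x hx => ?_) _ v h'
      rw [mem_union] at hx
      rcases hx with hx | hx
      · exact ih x hx
      · exact kn_sub x hx
    · exact (fs_sub h').1

lemma Hyp.bkn_sub (h : Hyp Γ T P K f) (k : ℕ) : ∀ v ∈ Bk Γ T P K f k ∪ Kn Γ T P f k, v ∈ T := by
  intro x hx
  rw [mem_union] at hx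
  rcases hx with hx | hx
  · exact h.bk_sub k x hx
  · exact kn_sub x hx

lemma ly_sub_bk (k : ℕ) :
    Ly Γ T K (Mk Γ T P f k) (Bk Γ T P K f k ∪ Kn Γ T P f k) ⊆ Bk Γ T P K f (k + 1) :=
  Finset.subset_union_left

lemma bk_succ (k : ℕ) : Bk Γ T P K f k ⊆ Bk Γ T P K f (k + 1) :=
  Finset.subset_union_left.trans ((sub_Ly _).trans (ly_sub_bk k))

lemma bk_mono {k l : ℕ} (h : k ≤ l) : Bk Γ T P K f k ⊆ Bk Γ T P K f l := by
  induction l, h using Nat.le_induction with
  | base => exact subset_rfl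
  | succ m _ ih => exact ih.trans (bk_succ m)

lemma Hyp.bk_exh (h : Hyp Γ T P K f) (S : Finset V) (hS : ∀ x ∈ S, x ∈ T) (m : ℕ) :
    ∃ k, m ≤ k ∧ S ⊆ Bk Γ T P K f k := by
  refine ⟨max m (S.sup f + 1), le_max_left _ _, fun x hx => ?_⟩
  have h1 : x ∈ Bk Γ T P K f (f x + 1) := by
    show x ∈ Ly Γ T K (Mk Γ T P f (f x)) (Bk Γ T P K f (f x) ∪ Kn Γ T P f (f x)) ∪ Vk T f (f x)
    rw [mem_union]
    exact Or.inr (h.mem_vk.2 ⟨hS x hx, rfl⟩)
  refine bk_mono ?_ h1
  have : f x ≤ S.sup f := Finset.le_sup hx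
  omega

/-! ### Energies -/

lemma Hyp.s1_T (h : Hyp Γ T P K f) {k : ℕ} {y : V → Bool} {v : V} (hv : v ∈ T) :
    s1 P f k y v = y v := if_neg fun h1 => h.dis v hv h1.1

theorem Hyp.s1_E (h : Hyp Γ T P K f) (k : ℕ) (y : V → Bool) {D : Finset V} (hD : ∀ x ∈ D, x ∈ T) :
    E Γ y D - 2 * ((Kn Γ T P f k).card : ℤ) ≤ E Γ (s1 P f k y) D := by
  have h1 : ∀ x ∈ D, ∑ w ∈ nb Γ x \ D, eps Set.univ y x w + (if x ∈ Kn Γ T P f k then -2 else 0)
      ≤ ∑ w ∈ nb Γ x \ D, eps Set.univ (s1 P f k y) x w := by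
    intro x hx
    have hxT := hD x hx
    have h2 : ∑ w ∈ nb Γ x \ D, (eps Set.univ y x w + if w ∈ P ∧ f w = k then (-2 : ℤ) else 0)
        ≤ ∑ w ∈ nb Γ x \ D, eps Set.univ (s1 P f k y) x w := by
      refine Finset.sum_le_sum fun w _ => ?_
      by_cases hw : w ∈ P ∧ f w = k
      · rw [if_pos hw]
        have a1 := eps_le_one Set.univ y x w
        have a2 := neg_one_le_eps Set.univ (s1 P f k y) x w
        linarith
      · rw [if_neg hw, add_zero]
        have e1 : s1 P f k y w = y w := if_neg hw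
        unfold eps
        rw [e1, h.s1_T hxT]
    refine le_trans ?_ h2
    rw [Finset.sum_add_distrib]
    refine add_le_add le_rfl ?_
    rw [← Finset.sum_filter, Finset.sum_const]
    have hcard : ((nb Γ x \ D).filter (fun w => w ∈ P ∧ f w = k)).card ≤ 1 := by
      rw [Finset.card_le_one]
      intro a ha b hb
      rw [mem_filter] at ha hb
      exact h.inj (ha.2.2.trans hb.2.2.symm)
    split_ifs with hxk
    · interval_cases hh : ((nb Γ x \ D).filter (fun w => w ∈ P ∧ f w = k)).card <;> simp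
    · have : (nb Γ x \ D).filter (fun w => w ∈ P ∧ f w = k) = ∅ := by
        rw [Finset.eq_empty_iff_forall_notMem]
        intro w hw
        rw [mem_filter, mem_sdiff, mem_nb _ (h.fin x hxT)] at hw
        exact hxk (h.mem_kn.2 ⟨hxT, w, hw.2.1, hw.2.2, hw.1.1.symm⟩)
      rw [this]
      simp
  have h3 := Finset.sum_le_sum h1
  rw [Finset.sum_add_distrib] at h3
  have h4 : -(2 * ((Kn Γ T P f k).card : ℤ)) ≤ ∑ x ∈ D, (if x ∈ Kn Γ T P f k then (-2 : ℤ) else 0) := by
    rw [← Finset.sum_filter, Finset.sum_const, nsmul_eq_mul]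
    have : ((D.filter (· ∈ Kn Γ T P f k)).card : ℤ) ≤ (Kn Γ T P f k).card := by
      exact_mod_cast Finset.card_le_card (fun x hx => (mem_filter.1 hx).2)
    linarith
  show en Γ (eps Set.univ y) D - _ ≤ en Γ (eps Set.univ (s1 P f k y)) D
  unfold en
  linarith

lemma Hyp.s1_far (h : Hyp Γ T P K f) {k : ℕ} {y : V → Bool} {D : Finset V}
    (hD : ∀ x ∈ D, x ∈ T ∧ x ∉ Kn Γ T P f k) : E Γ (s1 P f k y) D = E Γ y D := by
  refine E_congr (fun x hx => h.s1_T (hD x hx).1) fun x hx w hw => ?_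
  refine if_neg fun h1 => (hD x hx).2 ?_
  exact h.mem_kn.2 ⟨(hD x hx).1, w, h1.1, h1.2, ((mem_nb _ (h.fin x (hD x hx).1)).1 hw).symm⟩

lemma card_le_sd (k : ℕ) : (Kn Γ T P f k).card ≤ sd Γ T P f k :=
  Finset.single_le_sum (f := fun l => (Kn Γ T P f l).card) (fun _ _ => Nat.zero_le _)
    (Finset.mem_range.2 (Nat.lt_succ_self k))

lemma Dk_sub (k : ℕ) (y : V → Bool) :
    (Dk Γ T P K f k y).1 ⊆ Ly Γ T K (Mk Γ T P f k) (Bk Γ T P K f k ∪ Kn Γ T P f k) := Rc_sub _ _

lemma Dk_sub_bk (k : ℕ) (y : V → Bool) : (Dk Γ T P K f k y).1 ⊆ Bk Γ T P K f (k + 1) :=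
  (Dk_sub k y).trans (ly_sub_bk k)

theorem Hyp.Dk_spec (h : Hyp Γ T P K f) {k : ℕ} {y : V → Bool} (hy : St Γ T P K f (k + 1) y) :
    Rp Γ T K (Bk Γ T P K f k ∪ Kn Γ T P f k) (Mk Γ T P f k) (s1 P f k y) (Dk Γ T P K f k y) := by
  refine h.clu.Rc_spec (e := 2 * (Kn Γ T P f k).card) (h.bkn_sub k) ?_ ?_
  · have := card_le_sd (Γ := Γ) (T := T) (P := P) (f := f) k
    unfold Mk
    omega
  · intro D hD
    have h1 := hy.1 D (hD.trans (ly_sub_bk k))
    have h2 := h.s1_E k y (D := D) (fun x hx => h.clu.ly_sub (h.bkn_sub k) _ x (hD hx))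
    push_cast
    linarith

lemma Hyp.step_petal (h : Hyp Γ T P K f) {k : ℕ} {b : Bool} {y : V → Bool} {u : V} (hu : u ∈ P)
    (huk : f u ≠ k) : step Γ T P K f k b y u = y u := by
  unfold step
  split_ifs
  · rw [flp_of_not_mem, s1, if_neg (fun h1 => huk h1.2)]
    intro h1
    exact h.dis u (h.bk_sub _ u (Dk_sub_bk k y h1)) hu
  · rfl

lemma Hyp.step_out (h : Hyp Γ T P K f) {k : ℕ} {b : Bool} {y : V → Bool} {u : V} (hu : u ∉ P)
    (huT : u ∉ T) : step Γ T P K f k b y u = y u := by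
  unfold step
  split_ifs
  · rw [flp_of_not_mem, s1, if_neg (fun h1 => hu h1.1)]
    intro h1
    exact huT (h.bk_sub _ u (Dk_sub_bk k y h1))
  · rfl

lemma Hyp.step_petal_self (h : Hyp Γ T P K f) {k : ℕ} {b : Bool} {y : V → Bool} {u : V}
    (hu : u ∈ P) (huk : f u = k) (hy : y u = false) : step Γ T P K f k b y u = b := by
  unfold step
  split_ifs with hb
  · rw [flp_of_not_mem, s1, if_pos ⟨hu, huk⟩, hb]
    intro h1
    exact h.dis u (h.bk_sub _ u (Dk_sub_bk k y h1)) hu
  · rw [hy]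
    cases b
    · rfl
    · exact absurd rfl hb

lemma step_finite (h : Hyp Γ T P K f) (k : ℕ) (b : Bool) (y : V → Bool) :
    {v | step Γ T P K f k b y v ≠ y v}.Finite := by
  have h1 : {v | v ∈ P ∧ f v = k}.Finite := by
    refine Set.Subsingleton.finite ?_
    rintro a ⟨_, ha⟩ b ⟨_, hb⟩
    exact h.inj (ha.trans hb.symm)
  refine (h1.union (Dk Γ T P K f k y).1.finite_toSet).subset ?_
  intro v hv
  by_contra hn
  rw [Set.mem_union, not_or] at hn
  refine hv ?_
  unfold step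
  split_ifs
  · rw [flp_of_not_mem (by simpa using hn.2), s1, if_neg (show ¬ (v ∈ P ∧ f v = k) from hn.1)]
  · rfl

/-- A step leads from states of level `k + 1` to states of level `k`. -/
theorem Hyp.step_St (h : Hyp Γ T P K f) {k : ℕ} {b : Bool} {y : V → Bool}
    (hy : St Γ T P K f (k + 1) y) : St Γ T P K f k (step Γ T P K f k b y) := by
  by_cases hb : b = true
  · obtain ⟨a1, a2, a3, a4⟩ := h.Dk_spec hy
    set p := Dk Γ T P K f k y with hp
    have hs : step Γ T P K f k b y = flp (s1 P f k y) p.1 := if_pos hb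
    refine ⟨?_, ?_, fun u hu huk => ?_, fun v hvT hvP => ?_⟩
    · intro D hD
      rw [hs]
      exact a4 D ((hD.trans Finset.subset_union_left).trans (sub_Ly _))
    · intro w hw D hD
      rw [hs]
      by_cases hvL : K w ⊆ Ly Γ T K (p.2 + 1) (Bk Γ T P K f k ∪ Kn Γ T P f k)
      · exact a4 D (hD.trans hvL)
      · have hsub := h.bkn_sub k
        have htch : ∀ x, x ∈ Ly Γ T K p.2 (Bk Γ T P K f k ∪ Kn Γ T P f k) → ¬ Tch Γ T K w x :=
          fun x hx ht => hvL (h.clu.ly_tch hsub hx ht)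
        have hDT : ∀ x ∈ D, x ∈ T := fun x hx => h.clu.sub w hw x (hD hx)
        have hDp : ∀ x ∈ D, x ∉ p.1 := fun x hx hxp => htch x (a2 hxp) ⟨hw, Or.inl (hD hx)⟩
        have hDk : ∀ x ∈ D, x ∈ T ∧ x ∉ Kn Γ T P f k := fun x hx =>
          ⟨hDT x hx, fun hxk => htch x (sub_Ly _ (mem_union_right _ hxk)) ⟨hw, Or.inl (hD hx)⟩⟩
        have e1 : E Γ (flp (s1 P f k y) p.1) D = E Γ (s1 P f k y) D := by
          refine E_congr (fun x hx => flp_of_not_mem (hDp x hx)) fun x hx z hz => ?_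
          refine flp_of_not_mem fun h1 => ?_
          exact htch z (a2 h1) ⟨hw, Or.inr ⟨x, hD hx, (mem_nb _ (h.fin x (hDT x hx))).1 hz⟩⟩
        rw [e1, h.s1_far hDk]
        exact hy.2.1 w hw D hD
    · rw [h.step_petal hu (ne_of_lt huk)]
      exact hy.2.2.1 u hu (Nat.lt_succ_of_lt huk)
    · rw [h.step_out hvP hvT]
      exact hy.2.2.2 v hvT hvP
  · have hs : step Γ T P K f k b y = y := if_neg hb
    rw [hs]
    exact ⟨fun D hD => hy.1 D (hD.trans (bk_succ k)), hy.2.1,
      fun u hu huk => hy.2.2.1 u hu (Nat.lt_succ_of_lt huk), hy.2.2.2⟩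

lemma Hyp.down_St (h : Hyp Γ T P K f) {b : ℕ → Bool} {y : V → Bool} (n : ℕ) :
    ∀ l, St Γ T P K f (l + n) y → St Γ T P K f l (down Γ T P K f b y l n) := by
  induction n with
  | zero => intro l hy; exact hy
  | succ n ih =>
    intro l hy
    refine h.step_St (ih (l + 1) ?_)
    have : l + 1 + n = l + (n + 1) := by omega
    rw [this]
    exact hy

lemma down_finite (h : Hyp Γ T P K f) {b : ℕ → Bool} {y : V → Bool} (n : ℕ) :
    ∀ l, {v | down Γ T P K f b y l n v ≠ y v}.Finite := by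
  induction n with
  | zero => intro l; simp [down]
  | succ n ih =>
    intro l
    refine ((ih (l + 1)).union (step_finite h l (b l) (down Γ T P K f b y (l + 1) n))).subset ?_
    intro v hv
    by_contra hn
    rw [Set.mem_union, not_or] at hn
    have e1 : down Γ T P K f b y (l + 1) n v = y v := by
      by_contra h1; exact hn.1 h1
    have e2 : step Γ T P K f l (b l) (down Γ T P K f b y (l + 1) n) v
        = down Γ T P K f b y (l + 1) n v := by
      by_contra h1; exact hn.2 h1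
    exact hv (e2.trans e1)

/-! ### Consistent sequences -/

lemma th_down {p : (ℕ → Bool) × (ℕ → V → Bool)} (hp : p ∈ TH Γ T P K f) (n : ℕ) :
    ∀ l, p.2 l = down Γ T P K f p.1 (p.2 (l + n)) l n := by
  induction n with
  | zero => intro l; rfl
  | succ n ih =>
    intro l
    have h1 := ih (l + 1)
    have : l + 1 + n = l + (n + 1) := by omega
    rw [this] at h1
    show p.2 l = step Γ T P K f l (p.1 l) (down Γ T P K f p.1 (p.2 (l + (n + 1))) (l + 1) n)
    rw [← h1]
    exact (hp l).2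

lemma Hyp.tog_mem (h : Hyp Γ T P K f) {p : (ℕ → Bool) × (ℕ → V → Bool)} (hp : p ∈ TH Γ T P K f)
    (k : ℕ) : tog Γ T P K f k p ∈ TH Γ T P K f := by
  intro l
  set b' := Function.update p.1 k (!(p.1 k)) with hb'
  have e2 : ∀ l, (tog Γ T P K f k p).2 l = if l ≤ k then
    down Γ T P K f b' (p.2 (k + 1)) l (k + 1 - l) else p.2 l := fun l => rfl
  have e1 : (tog Γ T P K f k p).1 = b' := rfl
  have e3 : ∀ l, l ≤ k + 1 → (tog Γ T P K f k p).2 l
      = down Γ T P K f b' (p.2 (k + 1)) l (k + 1 - l) := by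
    intro l hl
    rw [e2]
    split_ifs with h1
    · rfl
    · have : l = k + 1 := by omega
      rw [this, Nat.sub_self]
      rfl
  by_cases hl : l ≤ k
  · rw [e3 l (by omega), e3 (l + 1) (by omega), e1]
    constructor
    · refine h.down_St _ _ ?_
      have : l + (k + 1 - l) = k + 1 := by omega
      rw [this]
      exact (hp (k + 1)).1
    · have : k + 1 - l = (k + 1 - (l + 1)) + 1 := by omega
      rw [this]
      rfl
  · rw [e2, e2, if_neg hl, if_neg (by omega), e1]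
    have : b' l = p.1 l := by
      rw [hb', Function.update_of_ne (by omega)]
    rw [this]
    exact hp l

lemma Hyp.th_petal (h : Hyp Γ T P K f) {p : (ℕ → Bool) × (ℕ → V → Bool)}
    (hp : p ∈ TH Γ T P K f) {u : V} (hu : u ∈ P) : p.2 0 u = p.1 (f u) := by
  have h1 : p.2 (f u) u = p.1 (f u) := by
    rw [(hp (f u)).2]
    exact h.step_petal_self hu rfl ((hp (f u + 1)).1.2.2.1 u hu (Nat.lt_succ_self _))
  have h2 : ∀ n, ∀ l, l + n = f u → p.2 l u = p.1 (f u) := by
    intro n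
    induction n with
    | zero =>
      intro l hl
      rw [add_zero] at hl
      rw [hl]; exact h1
    | succ n ih =>
      intro l hl
      rw [(hp l).2, h.step_petal hu (by omega)]
      exact ih (l + 1) (by omega)
  exact h2 (f u) 0 (by omega)

/-- The excess. -/
theorem Hyp.th_excess (h : Hyp Γ T P K f) {p : (ℕ → Bool) × (ℕ → V → Bool)}
    (hp : p ∈ TH Γ T P K f)
    (k : ℕ) : ∀ D ⊆ Bk Γ T P K f (k + 1), -(2 * sd Γ T P f k : ℤ) ≤ E Γ (p.2 0) D := by
  have h2 : ∀ n, ∀ l, l + n = k + 1 → ∀ D ⊆ Bk Γ T P K f (k + 1),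
      -(2 * ∑ i ∈ range n, ((Kn Γ T P f (l + i)).card : ℤ)) ≤ E Γ (p.2 l) D := by
    intro n
    induction n with
    | zero =>
      intro l hl D hD
      rw [add_zero] at hl
      rw [hl]
      simpa using (hp (k + 1)).1.1 D hD
    | succ n ih =>
      intro l hl D hD
      have hy := (hp (l + 1)).1
      have hDT : ∀ x ∈ D, x ∈ T := fun x hx => h.bk_sub _ x (hD hx)
      rw [Finset.sum_range_succ', (hp l).2]
      by_cases hb : p.1 l = true
      · obtain ⟨a1, a2, a3, a4⟩ := h.Dk_spec hy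
        set q := Dk Γ T P K f l (p.2 (l + 1)) with hq
        have hs : step Γ T P K f l (p.1 l) (p.2 (l + 1)) = flp (s1 P f l (p.2 (l + 1))) q.1 :=
          if_pos hb
        rw [hs]
        have hqB : q.1 ⊆ Bk Γ T P K f (k + 1) := (Dk_sub_bk l _).trans (bk_mono (by omega))
        have hqT : ∀ x ∈ q.1, x ∈ T := fun x hx => h.bk_sub _ x (hqB hx)
        have hsub : symmDiff q.1 D ⊆ Bk Γ T P K f (k + 1) := by
          intro x hx
          rw [Finset.mem_symmDiff] at hx
          rcases hx with hx | hx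
          · exact hqB hx.1
          · exact hD hx.1
        have h3 := ih (l + 1) (by omega) _ hsub
        have h4 := h.s1_E l (p.2 (l + 1)) (D := symmDiff q.1 D)
          (fun x hx => h.bk_sub _ x (hsub hx))
        have h5 := en_flp (G := Γ) (s1 P f l (p.2 (l + 1))) q.1 D (fun x hx => h.fin x (hqT x hx))
          (fun x hx => h.fin x (hDT x hx))
        have h6 : E Γ (flp (s1 P f l (p.2 (l + 1))) q.1) D
            = E Γ (s1 P f l (p.2 (l + 1))) (symmDiff q.1 D)
              - E Γ (s1 P f l (p.2 (l + 1))) q.1 := h5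
        have h7 : ∑ i ∈ range n, ((Kn Γ T P f (l + 1 + i)).card : ℤ)
            = ∑ i ∈ range n, ((Kn Γ T P f (l + (i + 1))).card : ℤ) := by
          refine Finset.sum_congr rfl fun i _ => ?_
          have : l + 1 + i = l + (i + 1) := by omega
          rw [this]
        rw [h7] at h3
        rw [h6, add_zero]
        linarith
      · have hs : step Γ T P K f l (p.1 l) (p.2 (l + 1)) = p.2 (l + 1) := if_neg hb
        rw [hs]
        have h3 := ih (l + 1) (by omega) D hD
        have h7 : ∑ i ∈ range n, ((Kn Γ T P f (l + 1 + i)).card : ℤ)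
            = ∑ i ∈ range n, ((Kn Γ T P f (l + (i + 1))).card : ℤ) := by
          refine Finset.sum_congr rfl fun i _ => ?_
          have : l + 1 + i = l + (i + 1) := by omega
          rw [this]
        rw [h7] at h3
        have : (0 : ℤ) ≤ ((Kn Γ T P f (l + 0)).card : ℤ) := by positivity
        linarith
  intro D hD
  have h3 := h2 (k + 1) 0 (by omega) D hD
  simp only [zero_add] at h3
  unfold sd
  push_cast
  exact h3

end UnfW
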