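import Pool.Agent.Work.MP_1aab6d_co_w.Proc

/-!
# Flipping exceptional vertices
-/

set_option autoImplicit false

namespace UnfW

open Finset Classical Unf UnfL

variable {V : Type*} {G Γ : SimpleGraph V} {T T1 : Set V} {O : V → Set V} {Cr : Set V}
  {K : V → Finset V} {E0 : Finset V} {c c' : V → Bool}

/-- Flip an unhappy vertex and repair. -/
theorem Sys.flip_repair (hs : Sys G Γ T T1 O Cr K E0) (hR : Rep Γ T1 K c)
    (hJ : ∀ D : Finset V, (∀ x ∈ D, ¬ Inf G x ∧ x ∉ T1) → 0 ≤ E Γ c D) {w : V} (hw : Inf G w)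
    (hun : {y | Γ.Adj w y ∧ c y ≠ c w}.Finite) :
    ∃ Q : Finset V, (∀ x ∈ Q, ¬ Inf G x) ∧
      Rep Γ T1 K (flp (Function.update c w (!(c w))) Q) ∧
      ∀ D : Finset V, (∀ x ∈ D, ¬ Inf G x ∧ x ∉ T1) →
        0 ≤ E Γ (flp (Function.update c w (!(c w))) Q) D := by
  have hF : ∀ x, ¬ Inf G x → ¬ Inf Γ x := fun x hx => hs.infΓ hx
  have hT1F : ∀ x ∈ T1, ¬ Inf G x := fun x hx => hs.Tfin x (hs.T1T x hx)
  set c1 := Function.update c w (!(c w)) with hc1
  set H := hun.toFinset.filter (fun x => ¬ Inf G x) with hH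
  have hHmem : ∀ x, x ∈ H ↔ (Γ.Adj w x ∧ c x ≠ c w) ∧ ¬ Inf G x := by
    intro x
    rw [hH, mem_filter, Set.Finite.mem_toFinset]
    rfl
  have hb : ∀ Q : Finset V, (∀ x ∈ Q, ¬ Inf G x) →
      E Γ c Q - (2 * (H.card : ℤ)) ≤ E Γ c1 Q := by
    intro Q hQ
    have hwQ : w ∉ Q := fun h => hQ w h hw
    have e1 : en Γ (fun x y => eps Set.univ c x y + if y ∈ ({w} : Finset V) then
        (if x ∈ H then (-2 : ℤ) else 0) else 0) Q ≤ en Γ (eps Set.univ c1) Q := by
      refine en_mono fun x hx y hy _ => ?_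
      have hxw : x ≠ w := fun h => hwQ (h ▸ hx)
      by_cases hyw : y = w
      · subst hyw
        rw [if_pos (Finset.mem_singleton_self _)]
        by_cases hxO : x ∈ H
        · rw [if_pos hxO]
          have a1 := eps_le_one Set.univ c x y
          have a2 := neg_one_le_eps Set.univ c1 x y
          linarith
        · rw [if_neg hxO]
          have : c x = c y := by
            by_contra hne
            refine hxO ?_
            rw [hHmem]
            exact ⟨⟨((mem_nb Γ (hF x (hQ x hx))).1 hy).symm, hne⟩, hQ x hx⟩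
          rw [eps_eq_neg (by simp [this]), eps_eq_one (Set.mem_univ _)
            (by rw [hc1, Function.update_self, Function.update_of_ne hxw, this]; simp)]
          norm_num
      · rw [if_neg (by simpa using hyw), add_zero]
        unfold eps
        rw [hc1, Function.update_of_ne hxw, Function.update_of_ne hyw]
    rw [en_add_ind _ _ (by simpa using hwQ)] at e1
    have e2 : -(2 * (H.card : ℤ)) ≤ cr Γ (fun x _ => if x ∈ H then (-2 : ℤ) else 0) Q {w} := by
      unfold cr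
      have : ∀ x ∈ Q, (if x ∈ H then (-2 : ℤ) else 0)
          ≤ ∑ y ∈ nb Γ x ∩ {w}, (if x ∈ H then (-2 : ℤ) else 0) := by
        intro x _
        rw [Finset.sum_const]
        have hcard : (nb Γ x ∩ {w}).card ≤ 1 := by
          refine (Finset.card_le_card Finset.inter_subset_right).trans ?_
          simp
        split_ifs
        · interval_cases hh : (nb Γ x ∩ {w}).card <;> simp
        · simp
      refine le_trans ?_ (Finset.sum_le_sum this)
      rw [← Finset.sum_filter, Finset.sum_const, nsmul_eq_mul]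
      have : ((Q.filter (· ∈ H)).card : ℤ) ≤ H.card := by
        exact_mod_cast Finset.card_le_card (fun x hx => (mem_filter.1 hx).2)
      linarith
    show en Γ (eps Set.univ c) Q - _ ≤ en Γ (eps Set.univ c1) Q
    linarith
  -- the two repairs
  obtain ⟨e, S', hs1, hs2, hs3⟩ := hR.2 (2 * H.card) (H.filter (· ∈ T1))
    (fun x hx => (mem_filter.1 hx).2)
  obtain ⟨p, a1, a2, a3, a4⟩ := hs.clu.repair (S := S') (c := c1)
    (M := 2 * (e + 2 * H.card) + 1) (e := e + 2 * H.card) hs2 (Nat.lt_succ_self _) (by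
      intro D hD
      have h1 := hs3 D hD
      have h2 := hb D (fun x hx => hT1F x (hs.clu.ly_sub hs2 _ x (hD hx)))
      push_cast
      linarith)
  obtain ⟨Q2, b1, b2⟩ := fix_in (Γ := Γ) (C := {x | ¬ Inf G x ∧ x ∉ T1}) (c := c1)
    (fun x hx => hF x hx.1) (2 * (H.card : ℤ)) (by
      intro Q hQ
      have h1 := hJ Q hQ
      have h2 := hb Q (fun x hx => (hQ x hx).1)
      linarith)
  have hpT : ∀ x ∈ p.1, x ∈ T1 := fun x hx => hs.clu.ly_sub hs2 _ x (a2 hx)
  have hpF : ∀ x ∈ p.1, ¬ Inf G x := fun x hx => hT1F x (hpT x hx)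
  have hQ2F : ∀ x ∈ Q2, ¬ Inf G x := fun x hx => (b1 x hx).1
  -- separation
  have hET : ∀ D : Finset V, (∀ x ∈ D, x ∈ T1) →
      E Γ (flp c1 (p.1 ∪ Q2)) D = E Γ (flp c1 p.1) D := by
    intro D hD
    have hval : ∀ v, v ∉ Q2 → flp c1 (p.1 ∪ Q2) v = flp c1 p.1 v := by
      intro v hv
      by_cases hvp : v ∈ p.1
      · rw [flp_of_mem hvp, flp_of_mem (mem_union_left _ hvp)]
      · rw [flp_of_not_mem hvp, flp_of_not_mem (fun h' => (mem_union.1 h').elim hvp hv)]
    refine E_congr (fun x hx => hval x fun h' => (b1 x h').2 (hD x hx)) fun x hx y hy => ?_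
    refine hval y fun h' => (b1 y h').2 ?_
    exact hs.T1cl x (hD x hx) y ((mem_nb Γ (hs.clu.fin x (hD x hx))).1 hy) (b1 y h').1
  have hEJ : ∀ D : Finset V, (∀ x ∈ D, ¬ Inf G x ∧ x ∉ T1) →
      E Γ (flp c1 (p.1 ∪ Q2)) D = E Γ (flp c1 Q2) D := by
    intro D hD
    have hval : ∀ v, v ∉ p.1 → flp c1 (p.1 ∪ Q2) v = flp c1 Q2 v := by
      intro v hv
      by_cases hvp : v ∈ Q2
      · rw [flp_of_mem hvp, flp_of_mem (mem_union_right _ hvp)]
      · rw [flp_of_not_mem hvp, flp_of_not_mem (fun h' => (mem_union.1 h').elim hv hvp)]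
    refine E_congr (fun x hx => hval x fun h' => (hD x hx).2 (hpT x h')) fun x hx y hy => ?_
    refine hval y fun h' => (hD x hx).2 ?_
    exact hs.T1cl y (hpT y h') x ((mem_nb Γ (hF x (hD x hx).1)).1 hy).symm (hD x hx).1
  refine ⟨p.1 ∪ Q2, fun x hx => (mem_union.1 hx).elim (hpF x) (hQ2F x), ⟨?_, ?_⟩, ?_⟩
  · intro w' hw' D hD
    have hDT : ∀ x ∈ D, x ∈ T1 := fun x hx => hs.clu.sub w' hw' x (hD hx)
    rw [hET D hDT]
    by_cases hvL : K w' ⊆ Ly Γ T1 K (p.2 + 1) S'
    · exact a4 D (hD.trans hvL)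
    · have htch : ∀ x, x ∈ Ly Γ T1 K p.2 S' → ¬ Tch Γ T1 K w' x :=
        fun x hx ht => hvL (hs.clu.ly_tch hs2 hx ht)
      refine (hR.1 w' hw' D hD).trans ?_
      refine en_mono fun x hx y hy _ => ?_
      have hxT := hDT x hx
      have hxF : ¬ Inf G x := hT1F x hxT
      have hxw : x ≠ w := fun h => hxF (h ▸ hw)
      have hxp : x ∉ p.1 := fun h => htch x (a2 h) ⟨hw', Or.inl (hD hx)⟩
      have hadj := (mem_nb Γ (hs.clu.fin x hxT)).1 hy
      have hyp : y ∉ p.1 := fun h => htch y (a2 h) ⟨hw', Or.inr ⟨x, hD hx, hadj⟩⟩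
      by_cases hyw : y = w
      · subst hyw
        have : c x = c y := by
          by_contra hne
          refine htch x (sub_Ly _ (hs1 (mem_filter.2 ⟨(hHmem x).2 ⟨⟨hadj.symm, hne⟩, hxF⟩, hxT⟩)))
            ⟨hw', Or.inl (hD hx)⟩
        rw [eps_eq_neg (by simp [this]), eps_eq_one (Set.mem_univ _)]
        · norm_num
        · rw [flp_of_not_mem hyp, flp_of_not_mem hxp, hc1, Function.update_self,
            Function.update_of_ne hxw, this]
          simp
      · refine le_of_eq ?_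
        unfold eps
        rw [flp_of_not_mem hyp, flp_of_not_mem hxp, hc1, Function.update_of_ne hxw,
          Function.update_of_ne hyw]
  · intro m S hS
    obtain ⟨e', S'', ht1, ht2, ht3⟩ := hR.2 (m + 2 * H.card) (S ∪ p.1) (by
      intro x hx
      rcases mem_union.1 hx with h | h
      · exact hS x h
      · exact hpT x h)
    refine ⟨e' + 2 * H.card, S'', Finset.subset_union_left.trans ht1, ht2, ?_⟩
    intro D hD
    have hK : 2 * (e' + 2 * H.card + m) + 1 = 2 * (e' + (m + 2 * H.card)) + 1 := by ring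
    rw [hK] at hD
    have hDT : ∀ x ∈ D, x ∈ T1 := fun x hx => hs.clu.ly_sub ht2 _ x (hD hx)
    rw [hET D hDT]
    have hsub : symmDiff p.1 D ⊆ Ly Γ T1 K (2 * (e' + (m + 2 * H.card)) + 1) S'' := by
      intro x hx
      rw [Finset.mem_symmDiff] at hx
      rcases hx with hx | hx
      · exact sub_Ly _ (ht1 (mem_union_right _ hx.1))
      · exact hD hx.1
    have h1 := ht3 _ hsub
    have h2 := hb (symmDiff p.1 D) (fun x hx => hT1F x (hs.clu.ly_sub ht2 _ x (hsub hx)))
    have h5 := en_flp (G := Γ) c1 p.1 D (fun x hx => hF x (hpF x hx))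
          (fun x hx => hs.clu.fin x (hDT x hx))
    have h6 : E Γ (flp c1 p.1) D = E Γ c1 (symmDiff p.1 D) - E Γ c1 p.1 := h5
    rw [h6]
    push_cast
    linarith
  · intro D hD
    rw [hEJ D hD]
    exact b2 D hD

/-- Flip step. -/
theorem Sys.flip_step (hs : Sys G Γ T T1 O Cr K E0) (h : Stt G Γ T T1 O K E0 c) {w : V}
    (hw : w ∈ E0) (hun : ¬ Happy Γ c w) :
    ∃ c', Stt G Γ T T1 O K E0 c' ∧ (∀ w' ∈ E0, w' ≠ w → wt Γ O Cr c' w' ≤ wt Γ O Cr c w') ∧
      wt Γ O Cr c' w < wt Γ O Cr c w := by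
  have hwI := hs.E0G w hw
  have hUh : {y | Γ.Adj w y ∧ c y ≠ c w}.Finite := Set.not_infinite.1 hun
  obtain ⟨Q, hQG, hR', hJ'⟩ := hs.flip_repair h.1 h.2.1 hwI hUh
  set c' := flp (Function.update c w (!(c w))) Q with hc'
  have hwQ : w ∉ Q := fun h => hQG w h hwI
  have hcw : c' w = !(c w) := by rw [hc', flp_of_not_mem hwQ, Function.update_self]
  have hag : ∀ v, v ∉ Q → v ≠ w → c' v = c v := by
    intro v hv hvw
    rw [hc', flp_of_not_mem hv, Function.update_of_ne hvw]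
  have hinf : ∀ v, Inf G v → v ≠ w → c' v = c v := fun v hv hvw =>
    hag v (fun h => hQG v h hv) hvw
  -- the set where something changes
  have hfinw := hs.E0O w hw
  set Z : Set V := (↑(insert w Q) : Set V) ∪ {x | x ∈ T ∧ w ∈ O x} with hZ
  have hZf : Z.Finite := (Finset.finite_toSet _).union hfinw
  have hZ1 : ∀ v, v ∉ Z → c' v = c v := by
    intro v hv
    rw [hZ, Set.mem_union, not_or, Finset.mem_coe, Finset.mem_insert, not_or] at hv
    exact hag v hv.1.2 hv.1.1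
  have hZ2 : ∀ v, v ∉ Z → (v ∈ Unp O Cr c' ↔ v ∈ Unp O Cr c) := by
    intro v hv
    have hv1 := hZ1 v hv
    have hpet : v ∈ Cr → ∀ u ∈ O v, c' u = c u := by
      intro hcr u hu
      refine hinf u (hs.Oinf v (hs.CrT v hcr) u hu) ?_
      rintro rfl
      exact hv (Or.inr ⟨hs.CrT v hcr, hu⟩)
    constructor
    · rintro ⟨h1, h4⟩
      refine ⟨h1, fun u hu => ?_⟩
      rw [← hpet h1 u hu, ← hv1]
      exact h4 u hu
    · rintro ⟨h1, h4⟩
      refine ⟨h1, fun u hu => ?_⟩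
      rw [hpet h1 u hu, hv1]
      exact h4 u hu
  refine ⟨c', ⟨hR', hJ', fun u hu huE => ?_⟩, fun w' hw' hne => ?_, ?_⟩
  · have huw : u ≠ w := by
      rintro rfl
      exact huE hw
    refine Set.Infinite.mono ?_ ((h.2.2 u hu huE).sdiff hZf)
    rintro y ⟨⟨h1, h3⟩, h5⟩
    refine ⟨h1, ?_⟩
    rw [hinf u hu huw, hZ1 y h5]
    exact h3
  · have hw1 := hinf w' (hs.E0G w' hw') hne
    refine wt_le_of (fun h0 => ?_) (fun h1 => ?_) (fun h2 h3 => ?_)
    · refine Set.Infinite.mono ?_ (h0.sdiff hZf)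
      rintro y ⟨⟨a1, a2, a3⟩, a4⟩
      refine ⟨a1, fun h => a2 ((hZ2 y a4).1 h), ?_⟩
      rw [hw1, hZ1 y a4]
      exact a3
    · refine Set.Infinite.mono ?_ (h1.sdiff hZf)
      rintro y ⟨⟨a1, a2⟩, a4⟩
      exact ⟨a1, fun h => a2 ((hZ2 y a4).1 h)⟩
    · refine (h3.union hZf).subset ?_
      rintro y ⟨a1, a2⟩
      by_cases hy : y ∈ Z
      · exact Or.inr hy
      · left
        rw [hw1, hZ1 y hy] at a2
        exact ⟨a1, a2⟩
  · have hset : ∀ y, Γ.Adj w y → y ∉ Z ∪ {y | Γ.Adj w y ∧ c y ≠ c w} → c' y ≠ c' w := by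
      intro y hy hyn
      rw [Set.mem_union, not_or] at hyn
      have h1 : c y = c w := by
        by_contra hne
        exact hyn.2 ⟨hy, hne⟩
      rw [hcw, hZ1 y hyn.1, h1]
      exact fun h => bool_ne h.symm
    have h0 : ¬ {y | Γ.Adj w y ∧ y ∉ Unp O Cr c ∧ c y ≠ c w}.Infinite := by
      refine Set.not_infinite.2 (hUh.subset ?_)
      rintro y ⟨a1, _, a3⟩
      exact ⟨a1, a3⟩
    by_cases h1 : {y | Γ.Adj w y ∧ y ∉ Unp O Cr c}.Infinite
    · have h2 : {y | Γ.Adj w y ∧ y ∉ Unp O Cr c' ∧ c' y ≠ c' w}.Infinite := by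
        refine Set.Infinite.mono ?_ (h1.sdiff (hZf.union hUh))
        rintro y ⟨⟨a1, a2⟩, a3⟩
        refine ⟨a1, fun h => a2 ((hZ2 y fun h' => a3 (Or.inl h')).1 h), hset y a1 a3⟩
      unfold wt
      rw [if_pos h2, if_neg h0, if_pos h1]
      norm_num
    · have h3 : ¬ {y | Γ.Adj w y ∧ c y = c w}.Finite := by
        intro hf
        refine (hs.E0Γ w hw) ((hf.union hUh).subset ?_)
        intro y hy
        by_cases hcy : c y = c w
        · exact Or.inl ⟨hy, hcy⟩
        · exact Or.inr ⟨hy, hcy⟩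
      have h4 : {y | Γ.Adj w y ∧ c' y = c' w}.Finite := by
        refine (hZf.union hUh).subset ?_
        rintro y ⟨a1, a2⟩
        by_contra hn
        exact hset y a1 hn a2
      have h5 : wt Γ O Cr c w = 3 := by
        unfold wt
        rw [if_neg h0, if_neg h1, if_neg h3]
      rw [h5]
      unfold wt
      split_ifs <;> norm_num

/-- The process ends. -/
theorem Sys.process (hs : Sys G Γ T T1 O Cr K E0) (n : ℕ) : ∀ c, Stt G Γ T T1 O K E0 c →
    ∑ w ∈ E0, wt Γ O Cr c w ≤ n →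
    ∃ c', Stt G Γ T T1 O K E0 c' ∧ (∀ v ∈ Unp O Cr c', E Γ c' {v} ≠ 0) ∧
      ∀ w ∈ E0, Happy Γ c' w := by
  induction n with
  | zero =>
    intro c hc hn
    obtain ⟨c1, h1, h2, h3⟩ := hs.relax_step hc
    by_cases hall : ∀ w ∈ E0, Happy Γ c1 w
    · exact ⟨c1, h1, h2, hall⟩
    push Not at hall
    obtain ⟨w, hw, hun⟩ := hall
    obtain ⟨c2, _, _, h6⟩ := hs.flip_step h1 hw hun
    have h7 : wt Γ O Cr c w = 0 := by
      have := Finset.single_le_sum (f := fun w => wt Γ O Cr c w) (fun _ _ => Nat.zero_le _) hw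
      omega
    have h8 := h3 w hw
    omega
  | succ n ih =>
    intro c hc hn
    obtain ⟨c1, h1, h2, h3⟩ := hs.relax_step hc
    by_cases hall : ∀ w ∈ E0, Happy Γ c1 w
    · exact ⟨c1, h1, h2, hall⟩
    push Not at hall
    obtain ⟨w, hw, hun⟩ := hall
    obtain ⟨c2, h4, h5, h6⟩ := hs.flip_step h1 hw hun
    refine ih c2 h4 ?_
    have h7 : ∑ w ∈ E0, wt Γ O Cr c2 w < ∑ w ∈ E0, wt Γ O Cr c w := by
      refine Finset.sum_lt_sum (fun w' hw' => ?_) ⟨w, hw, h6.trans_le (h3 w hw)⟩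
      by_cases hne : w' = w
      · rw [hne]; exact (h6.trans_le (h3 w hw)).le
      · exact (h5 w' hw' hne).trans (h3 w' hw')
    omega

end UnfW
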