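import Pool.Agent.Work.MP_1aab6d_co_h50.Relax

/-!
# Clusters, layers, the repair lemma and ground states

`E Γ c D` is the energy needed for flipping the finite set `D` in the colouring `c`.  `K w` is a
finite cluster containing the vertex `w ∈ T`.  `Ly Γ T K n S` is obtained from `S` by adding `n`
times all the clusters which touch the set.
-/

set_option autoImplicit false

namespace UnfW

open Finset Classical Unf UnfL

variable {V : Type*}

/-- The energy of a finite set. -/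
noncomputable abbrev E (Γ : SimpleGraph V) (c : V → Bool) (D : Finset V) : ℤ :=
  en Γ (eps Set.univ c) D

lemma E_congr {Γ : SimpleGraph V} {c c' : V → Bool} {D : Finset V} (h1 : ∀ x ∈ D, c x = c' x)
    (h2 : ∀ x ∈ D, ∀ y ∈ nb Γ x, c y = c' y) : E Γ c D = E Γ c' D := by
  refine en_congr fun x hx y hy _ => ?_
  unfold eps
  rw [h1 x hx, h2 x hx y hy]

/-- The finset of a finite set. -/
noncomputable def fs (s : Set V) : Finset V := if h : s.Finite then h.toFinset else ∅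

lemma mem_fs {s : Set V} (h : s.Finite) {v : V} : v ∈ fs s ↔ v ∈ s := by
  unfold fs
  rw [dif_pos h, Set.Finite.mem_toFinset]

lemma fs_sub {s : Set V} {v : V} (h : v ∈ fs s) : v ∈ s := by
  unfold fs at h
  split_ifs at h with h1
  · exact (Set.Finite.mem_toFinset h1).1 h
  · exact absurd h (Finset.notMem_empty v)

section

variable (Γ : SimpleGraph V) (T : Set V) (K : V → Finset V)

/-- The cluster of `w` touches the vertex `x`. -/
def Tch (w x : V) : Prop := w ∈ T ∧ (x ∈ K w ∨ ∃ d ∈ K w, Γ.Adj d x)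

/-- Add the clusters which touch `S`. -/
noncomputable def Ns (S : Finset V) : Finset V :=
  S ∪ (S.biUnion (fun x => fs {w | Tch Γ T K w x})).biUnion K

/-- Add `n` layers. -/
noncomputable def Ly : ℕ → Finset V → Finset V
  | 0, S => S
  | n + 1, S => Ns Γ T K (Ly n S)

/-- All subsets of clusters have nonnegative energy. -/
def CG (c : V → Bool) : Prop := ∀ w ∈ T, ∀ D ⊆ K w, 0 ≤ E Γ c D

end

/-- The hypotheses on the clusters. -/
structure Clu (Γ : SimpleGraph V) (T : Set V) (K : V → Finset V) : Prop where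
  fin : ∀ x ∈ T, ¬ Inf Γ x
  self : ∀ w ∈ T, w ∈ K w
  sub : ∀ w ∈ T, ∀ x ∈ K w, x ∈ T
  loc : ∀ x ∈ T, {w | Tch Γ T K w x}.Finite

variable {Γ : SimpleGraph V} {T : Set V} {K : V → Finset V} {S : Finset V}

lemma Ly_succ_sub (n : ℕ) : Ly Γ T K n S ⊆ Ly Γ T K (n + 1) S := Finset.subset_union_left

lemma Ly_mono {n m : ℕ} (h : n ≤ m) : Ly Γ T K n S ⊆ Ly Γ T K m S := by
  induction m, h using Nat.le_induction with
  | base => exact subset_rfl
  | succ m _ ih => exact ih.trans (Ly_succ_sub m)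

lemma sub_Ly (n : ℕ) : S ⊆ Ly Γ T K n S :=
  Ly_mono (Γ := Γ) (T := T) (K := K) (S := S) (Nat.zero_le n)

lemma Clu.ly_sub (h : Clu Γ T K) (hS : ∀ x ∈ S, x ∈ T) (n : ℕ) : ∀ x ∈ Ly Γ T K n S, x ∈ T := by
  induction n with
  | zero => exact hS
  | succ n ih =>
    intro x hx
    have hx' : x ∈ Ns Γ T K (Ly Γ T K n S) := hx
    rw [Ns, mem_union, mem_biUnion] at hx'
    rcases hx' with hx' | ⟨w, hw, hxw⟩
    · exact ih x hx'
    · rw [mem_biUnion] at hw
      obtain ⟨y, hy, hw⟩ := hw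
      have hw' : w ∈ {w | Tch Γ T K w y} := fs_sub hw
      exact h.sub w hw'.1 x hxw

/-- A cluster which touches a layer is contained in the next one. -/
lemma Clu.ly_tch (h : Clu Γ T K) (hS : ∀ x ∈ S, x ∈ T) {n : ℕ} {w x : V} (hx : x ∈ Ly Γ T K n S)
    (hw : Tch Γ T K w x) : K w ⊆ Ly Γ T K (n + 1) S := by
  intro y hy
  show y ∈ Ns Γ T K (Ly Γ T K n S)
  rw [Ns, mem_union, mem_biUnion]
  refine Or.inr ⟨w, ?_, hy⟩
  rw [mem_biUnion]
  exact ⟨x, hx, (mem_fs (h.loc x (h.ly_sub hS n x hx))).2 hw⟩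

/-- The result of a repair of the colouring `c`: the set `p.1` to be flipped and the number `p.2` of
layers reached. -/
def Rp (Γ : SimpleGraph V) (T : Set V) (K : V → Finset V) (S : Finset V) (M : ℕ) (c : V → Bool)
    (p : Finset V × ℕ) : Prop :=
  p.2 < M ∧ p.1 ⊆ Ly Γ T K p.2 S ∧ E Γ c p.1 ≤ 0 ∧
    ∀ D ⊆ Ly Γ T K (p.2 + 1) S, 0 ≤ E Γ (flp c p.1) D

theorem Clu.repair (hC : Clu Γ T K) (hS : ∀ x ∈ S, x ∈ T) {c : V → Bool} {M e : ℕ}
    (hM : 2 * e < M) (h : ∀ D ⊆ Ly Γ T K M S, -(e : ℤ) ≤ E Γ c D) : ∃ p, Rp Γ T K S M c p := by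
  obtain ⟨p, hp, hmin⟩ := Finset.exists_min_image
    (((Ly Γ T K M S).powerset ×ˢ range (M + 1)).filter (fun p => p.1 ⊆ Ly Γ T K p.2 S))
    (fun p => 2 * E Γ c p.1 + (p.2 : ℤ)) ⟨(∅, 0), by
      rw [mem_filter, mem_product, mem_powerset, mem_range]
      exact ⟨⟨Finset.empty_subset _, Nat.succ_pos _⟩, Finset.empty_subset _⟩⟩
  rw [mem_filter, mem_product, mem_powerset, mem_range] at hp
  obtain ⟨⟨hp1, hp2⟩, hp3⟩ := hp
  have hmin' : ∀ (D : Finset V) (j : ℕ), j ≤ M → D ⊆ Ly Γ T K j S →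
      2 * E Γ c p.1 + (p.2 : ℤ) ≤ 2 * E Γ c D + (j : ℤ) := by
    intro D j hj hD
    refine hmin (D, j) ?_
    rw [mem_filter, mem_product, mem_powerset, mem_range]
    exact ⟨⟨hD.trans (Ly_mono hj), Nat.lt_succ_of_le hj⟩, hD⟩
  have h0 := hmin' ∅ 0 (Nat.zero_le _) (Finset.empty_subset _)
  have hE0 : E Γ c ∅ = 0 := en_empty _
  rw [hE0] at h0
  have h1 := h p.1 hp1
  have hpK : p.2 < M := by
    have : (p.2 : ℤ) ≤ 2 * e := by push_cast at h0; linarith
    have : p.2 ≤ 2 * e := by exact_mod_cast this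
    omega
  have hpT : ∀ x ∈ p.1, ¬ Inf Γ x := fun x hx => hC.fin x (hC.ly_sub hS _ x (hp1 hx))
  refine ⟨p, hpK, hp3, ?_, ?_⟩
  · push_cast at h0
    have : (0 : ℤ) ≤ p.2 := by positivity
    linarith
  · intro D hD
    show 0 ≤ en Γ (eps Set.univ (flp c p.1)) D
    rw [en_flp c p.1 D hpT (fun x hx => hC.fin x (hC.ly_sub hS _ x (hD hx)))]
    have h2 := hmin' (symmDiff p.1 D) (p.2 + 1) hpK (by
      intro x hx
      rw [Finset.mem_symmDiff] at hx
      rcases hx with ⟨hx, _⟩ | ⟨hx, _⟩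
      · exact Ly_succ_sub _ (hp3 hx)
      · exact hD hx)
    push_cast at h2
    have h3 : 2 * E Γ c p.1 ≤ 2 * E Γ c (symmDiff p.1 D) + 1 := by linarith
    have h4 : E Γ c p.1 ≤ E Γ c (symmDiff p.1 D) := by omega
    exact sub_nonneg.2 h4

/-- The vertices and their neighbours on which the repair depends. -/
noncomputable def Win (Γ : SimpleGraph V) (T : Set V) (K : V → Finset V) (S : Finset V) (M : ℕ) :
    Finset V :=
  Ly Γ T K M S ∪ (Ly Γ T K M S).biUnion (fun x => nb Γ x)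

/-- Restriction of a colouring to a finite window. -/
noncomputable def rs (W : Finset V) (c : V → Bool) : V → Bool := fun v => if v ∈ W then c v else false

lemma rs_congr {W : Finset V} {c c' : V → Bool} (h : ∀ v ∈ W, c v = c' v) : rs W c = rs W c' := by
  funext v
  unfold rs
  split_ifs with hv
  · exact h v hv
  · rfl

lemma rs_mem {W : Finset V} {c : V → Bool} {v : V} (h : v ∈ W) : rs W c v = c v := if_pos h

lemma rs_flp {W : Finset V} {c : V → Bool} {B : Finset V} {v : V} (h : v ∈ W) :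
    flp (rs W c) B v = flp c B v := by
  unfold flp
  rw [rs_mem h]

/-- The chosen repair; it depends on the colours in the window only. -/
noncomputable def Rc (Γ : SimpleGraph V) (T : Set V) (K : V → Finset V) (S : Finset V) (M : ℕ)
    (c : V → Bool) : Finset V × ℕ :=
  if h : ∃ p, Rp Γ T K S M (rs (Win Γ T K S M) c) p then h.choose else (∅, 0)

lemma Rc_congr {M : ℕ} {c c' : V → Bool} (h : ∀ v ∈ Win Γ T K S M, c v = c' v) :
    Rc Γ T K S M c = Rc Γ T K S M c' := by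
  unfold Rc
  rw [rs_congr h]

lemma Rc_sub (M : ℕ) (c : V → Bool) : (Rc Γ T K S M c).1 ⊆ Ly Γ T K M S := by
  unfold Rc
  split_ifs with h
  · exact h.choose_spec.2.1.trans (Ly_mono h.choose_spec.1.le)
  · exact Finset.empty_subset _

lemma E_rs {M : ℕ} {c : V → Bool} {D : Finset V} (hD : D ⊆ Ly Γ T K M S) :
    E Γ (rs (Win Γ T K S M) c) D = E Γ c D := by
  refine E_congr (fun x hx => rs_mem ?_) fun x hx y hy => rs_mem ?_
  · exact mem_union_left _ (hD hx)
  · exact mem_union_right _ (mem_biUnion.2 ⟨x, hD hx, hy⟩)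

lemma E_rs_flp {M : ℕ} {c : V → Bool} {D B : Finset V} (hD : D ⊆ Ly Γ T K M S) :
    E Γ (flp (rs (Win Γ T K S M) c) B) D = E Γ (flp c B) D := by
  refine E_congr (fun x hx => rs_flp ?_) fun x hx y hy => rs_flp ?_
  · exact mem_union_left _ (hD hx)
  · exact mem_union_right _ (mem_biUnion.2 ⟨x, hD hx, hy⟩)

theorem Clu.Rc_spec (hC : Clu Γ T K) (hS : ∀ x ∈ S, x ∈ T) {c : V → Bool} {M e : ℕ}
    (hM : 2 * e < M) (h : ∀ D ⊆ Ly Γ T K M S, -(e : ℤ) ≤ E Γ c D) :
    Rp Γ T K S M c (Rc Γ T K S M c) := by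
  have h1 : ∃ p, Rp Γ T K S M (rs (Win Γ T K S M) c) p := hC.repair hS hM (fun D hD => by
    rw [E_rs hD]; exact h D hD)
  have h2 : Rc Γ T K S M c = h1.choose := dif_pos h1
  rw [h2]
  obtain ⟨a1, a2, a3, a4⟩ := h1.choose_spec
  refine ⟨a1, a2, ?_, ?_⟩
  · rw [← E_rs (a2.trans (Ly_mono a1.le))]
    exact a3
  · intro D hD
    rw [← E_rs_flp (Γ := Γ) (T := T) (K := K) (S := S) (M := M) (c := c)
      (hD.trans (Ly_mono a1))]
    exact a4 D hD

/-- Existence of ground states on `J` with prescribed colours outside `J`. -/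
theorem ground (hT : ∀ x ∈ T, ¬ Inf Γ x) (ρ : V → Bool) :
    ∃ c : V → Bool, (∀ v, v ∉ T → c v = ρ v) ∧ ∀ D : Finset V, (∀ x ∈ D, x ∈ T) → 0 ≤ E Γ c D := by
  let K : Finset V → Set (V → Bool) := fun Q =>
    {c | (∀ v, v ∉ T → c v = ρ v) ∧ ((∀ x ∈ Q, x ∈ T) → 0 ≤ E Γ c Q)}
  have hK : ∀ Q, IsClosed (K Q) := by
    intro Q
    have c1 : IsClosed {c : V → Bool | ∀ v, v ∉ T → c v = ρ v} := by
      have : {c : V → Bool | ∀ v, v ∉ T → c v = ρ v} = ⋂ v ∈ Tᶜ, {c | c v = ρ v} := by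
        ext c; simp
      rw [this]
      exact isClosed_biInter fun v _ => isClosed_eq (continuous_apply v) continuous_const
    by_cases hq : ∀ x ∈ Q, x ∈ T
    · have : K Q = {c : V → Bool | ∀ v, v ∉ T → c v = ρ v} ∩ {c | 0 ≤ E Γ c Q} := by
        ext c; simp only [K, Set.mem_ofPred_eq, Set.mem_inter_iff]
        exact and_congr_right fun _ => ⟨fun h => h hq, fun h _ => h⟩
      rw [this]
      exact c1.inter (isClosed_le continuous_const (continuous_en Q))
    · have : K Q = {c : V → Bool | ∀ v, v ∉ T → c v = ρ v} := by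
        ext c; simp only [K, Set.mem_ofPred_eq]
        exact ⟨fun h => h.1, fun h => ⟨h, fun h' => absurd h' hq⟩⟩
      rw [this]; exact c1
  have hne : ∀ t : Finset (Finset V), (Set.univ ∩ ⋂ Q ∈ t, K Q).Nonempty := by
    intro t
    set A : Finset V := (t.biUnion id).filter (· ∈ T) with hA
    have hAI : ∀ x ∈ A, ¬ Inf Γ x := by
      intro x hx
      rw [hA, mem_filter] at hx
      exact hT x hx.2
    obtain ⟨B, hB, hmin⟩ := Finset.exists_min_image A.powerset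
      (fun B => en Γ (eps Set.univ ρ) B) ⟨∅, Finset.empty_mem_powerset A⟩
    rw [mem_powerset] at hB
    refine ⟨flp ρ B, Set.mem_univ _, ?_⟩
    simp only [Set.mem_iInter]
    intro Q hQt
    refine ⟨fun v hv => flp_of_not_mem fun hvB => ?_, fun hq => ?_⟩
    · have := hB hvB
      rw [hA, mem_filter] at this
      exact hv this.2
    · have hQA : Q ⊆ A := by
        intro x hx
        rw [hA, mem_filter]
        exact ⟨mem_biUnion.2 ⟨Q, hQt, hx⟩, hq x hx⟩
      show 0 ≤ en Γ (eps Set.univ (flp ρ B)) Q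
      rw [en_flp ρ B Q (fun x hx => hAI x (hB hx)) (fun x hx => hAI x (hQA hx))]
      have : symmDiff B Q ∈ A.powerset := by
        rw [mem_powerset]
        intro x hx
        rw [Finset.mem_symmDiff] at hx
        rcases hx with hx | hx
        · exact hB hx.1
        · exact hQA hx.1
      have := hmin _ this
      linarith
  obtain ⟨c, -, hc⟩ := isCompact_univ.inter_iInter_nonempty K hK hne
  rw [Set.mem_iInter] at hc
  exact ⟨c, (hc ∅).1, fun D hD => (hc D).2 hD⟩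

/-- Repair inside a set. -/
theorem fix_in {C : Set V} (hC : ∀ x ∈ C, ¬ Inf Γ x) {c : V → Bool} (M : ℤ)
    (h : ∀ Q : Finset V, (∀ x ∈ Q, x ∈ C) → -M ≤ E Γ c Q) :
    ∃ Q : Finset V, (∀ x ∈ Q, x ∈ C) ∧
      ∀ D : Finset V, (∀ x ∈ D, x ∈ C) → 0 ≤ E Γ (flp c Q) D := by
  obtain ⟨m, ⟨Q, hQ, hQm⟩, hmin⟩ := Int.exists_least_of_bdd
    (P := fun z => ∃ Q : Finset V, (∀ x ∈ Q, x ∈ C) ∧ en Γ (eps Set.univ c) Q = z)
    ⟨-M, by rintro z ⟨Q, hQ, rfl⟩; exact h Q hQ⟩ ⟨_, ∅, by simp, rfl⟩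
  refine ⟨Q, hQ, fun Q' hQ' => ?_⟩
  show 0 ≤ en Γ (eps Set.univ (flp c Q)) Q'
  rw [en_flp c Q Q' (fun x hx => hC x (hQ x hx)) (fun x hx => hC x (hQ' x hx)), hQm]
  have := hmin _ ⟨symmDiff Q Q', ?_, rfl⟩
  · linarith
  · intro x hx
    rw [Finset.mem_symmDiff] at hx
    rcases hx with hx | hx
    · exact hQ x hx.1
    · exact hQ' x hx.1

lemma cr_zero {P Q : Finset V} (g : V → V → ℤ) (hP : ∀ x ∈ P, ¬ Inf Γ x)
    (hPQ : ∀ x ∈ P, ∀ y ∈ Q, ¬ Γ.Adj x y) : cr Γ g P Q = 0 := by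
  unfold cr
  refine Finset.sum_eq_zero fun x hx => ?_
  have : nb Γ x ∩ Q = ∅ := by
    rw [Finset.eq_empty_iff_forall_notMem]
    intro y hy
    rw [mem_inter, mem_nb _ (hP x hx)] at hy
    exact hPQ x hx y hy.2 hy.1
  rw [this]
  simp

/-- The energy is additive for separated sets. -/
lemma E_union_sep {c : V → Bool} {P Q : Finset V} (hd : Disjoint P Q) (hP : ∀ x ∈ P, ¬ Inf Γ x)
    (hQ : ∀ x ∈ Q, ¬ Inf Γ x) (hPQ : ∀ x ∈ P, ∀ y ∈ Q, ¬ Γ.Adj x y) :
    E Γ c (P ∪ Q) = E Γ c P + E Γ c Q := by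
  show en Γ _ _ = en Γ _ _ + en Γ _ _
  rw [en_union _ hd, cr_zero _ hP hPQ, cr_zero _ hQ (fun x hx y hy h => hPQ y hy x hx h.symm)]
  ring

end UnfW
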