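import Pool.Agent.Work.MP_1aab6d_co_w.Defs
import Pool.Agent.Work.MP_1aab6d_co_w.Flip
import Pool.Agent.Work.MP_1aab6d_co.Max

/-!
# Unfriendly partitions of countable graphs: owner assignments
-/

set_option autoImplicit false

namespace UnfW

open Finset Classical Unf UnfL

variable {V : Type*}

lemma eps_univ (c : V → Bool) (x y : V) :
    eps Set.univ c x y = if c y ≠ c x then 1 else -1 := by simp [eps]

lemma even_sum_eps (c : V → Bool) (v : V) (N : Finset V) :
    Even (∑ y ∈ N, eps Set.univ c v y) ↔ Even (N.card) := by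
  induction N using Finset.induction_on with
  | empty => simp
  | insert a N ha ih =>
    rw [Finset.sum_insert ha, Finset.card_insert_of_notMem ha, eps_univ]
    split_ifs
    · rw [add_comm, Int.even_add_one, ih, Nat.even_add_one]
    · rw [neg_add_eq_sub, Int.even_sub_one, ih, Nat.even_add_one]

/-- Sums at a vertex with owners. -/
lemma light_sum {c : V → Bool} {v : V} {N N1 : Finset V} (hsub : N1 ⊆ N) {B : Finset V}
    (hB : ∀ y ∈ N, y ∉ N1 → y ∈ B) (hlight : B.card ≤ 1 ∨ (B.card ≤ 2 ∧ Even N.card))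
    (he : 0 ≤ ∑ y ∈ N1, eps Set.univ c v y) :
    ((∃ u ∈ B, c u ≠ c v) → 0 ≤ ∑ y ∈ N, eps Set.univ c v y) ∧
    ((∀ u ∈ B, c u ≠ c v) → 0 ≤ ∑ y ∈ N, eps Set.univ c v y) ∧
    ((∀ u ∈ B, c u = c v) → (∑ y ∈ N, eps Set.univ c v y < 0) →
      ∑ y ∈ N1, eps Set.univ c v y = 0) := by
  have hsplit : ∑ y ∈ N, eps Set.univ c v y
      = ∑ y ∈ N \ N1, eps Set.univ c v y + ∑ y ∈ N1, eps Set.univ c v y :=
    (Finset.sum_sdiff hsub).symm
  have hDB : N \ N1 ⊆ B := fun y hy => hB y (mem_sdiff.1 hy).1 (mem_sdiff.1 hy).2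
  have hcard : (N \ N1).card ≤ B.card := Finset.card_le_card hDB
  have hge : -((N \ N1).card : ℤ) ≤ ∑ y ∈ N \ N1, eps Set.univ c v y := by
    have : ∑ _y ∈ N \ N1, (-1 : ℤ) ≤ ∑ y ∈ N \ N1, eps Set.univ c v y :=
      Finset.sum_le_sum fun y _ => neg_one_le_eps _ _ _ _
    simpa using this
  have hev := even_sum_eps c v N
  refine ⟨?_, ?_, ?_⟩
  · rintro ⟨u, huB, hu⟩
    have h1 : -((B.card : ℤ) - 1) ≤ ∑ y ∈ N \ N1, eps Set.univ c v y := by
      by_cases huN : u ∈ N \ N1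
      · rw [← Finset.add_sum_erase _ _ huN, eps_univ, if_pos hu]
        have h2 : ∑ _y ∈ (N \ N1).erase u, (-1 : ℤ)
            ≤ ∑ y ∈ (N \ N1).erase u, eps Set.univ c v y :=
          Finset.sum_le_sum fun y _ => neg_one_le_eps _ _ _ _
        rw [Finset.sum_const, nsmul_eq_mul, mul_neg, mul_one, Finset.card_erase_of_mem huN] at h2
        have h3 : 0 < (N \ N1).card := Finset.card_pos.2 ⟨u, huN⟩
        push_cast [Nat.cast_sub (Nat.succ_le_of_lt h3)] at h2
        have : ((N \ N1).card : ℤ) ≤ B.card := by exact_mod_cast hcard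
        omega
      · have h2 : (N \ N1).card ≤ (B.erase u).card := by
          refine Finset.card_le_card fun y hy => ?_
          rw [Finset.mem_erase]
          exact ⟨fun h => huN (h ▸ hy), hDB hy⟩
        rw [Finset.card_erase_of_mem huB] at h2
        have h3 : 0 < B.card := Finset.card_pos.2 ⟨u, huB⟩
        omega
    rcases hlight with h | ⟨h, hN⟩
    · have : (B.card : ℤ) ≤ 1 := by exact_mod_cast h
      linarith
    · have h2 : (B.card : ℤ) ≤ 2 := by exact_mod_cast h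
      have h3 := hev.2 hN
      obtain ⟨k, hk⟩ := h3
      omega
  · intro hall
    have h1 : 0 ≤ ∑ y ∈ N \ N1, eps Set.univ c v y := by
      refine Finset.sum_nonneg fun y hy => ?_
      rw [eps_univ, if_pos (hall y (hDB hy))]
      norm_num
    linarith
  · intro hall hneg
    rcases hlight with h | ⟨h, hN⟩
    · have : (B.card : ℤ) ≤ 1 := by exact_mod_cast h
      have : ((N \ N1).card : ℤ) ≤ B.card := by exact_mod_cast hcard
      omega
    · have h2 : (B.card : ℤ) ≤ 2 := by exact_mod_cast h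
      have : ((N \ N1).card : ℤ) ≤ B.card := by exact_mod_cast hcard
      obtain ⟨k, hk⟩ := hev.2 hN
      omega

/-- The graph without the owned edges. -/
def Gk (G : SimpleGraph V) (T : Set V) (O : V → Set V) : SimpleGraph V where
  Adj a b := G.Adj a b ∧ ¬ (a ∈ T ∧ b ∈ O a) ∧ ¬ (b ∈ T ∧ a ∈ O b)
  symm := ⟨fun _ _ h => ⟨h.1.symm, h.2.2, h.2.1⟩⟩
  loopless := ⟨fun a h => G.loopless.irrefl a h.1⟩

variable {G : SimpleGraph V} {X T : Set V} {O : V → Set V}

lemma gk_le (a b : V) (h : (Gk G T O).Adj a b) : G.Adj a b := h.1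

lemma not_inf_gk {x : V} (hx : ¬ Inf G x) : ¬ Inf (Gk G T O) x := fun h =>
  hx (Set.Infinite.mono (fun y hy => gk_le x y hy) h)

lemma comp_T (hTc : ∀ v ∈ T, ∀ w, G.Adj v w → ¬ Inf G w → w ∈ T)
    {v a : V} (hv : v ∈ T) (ha : a ∈ comp G v) : a ∈ T := by
  have ha' : Relation.ReflTransGen (fun p q => G.Adj p q ∧ ¬ Inf G q ∧ q ∉ (∅ : Set V)) v a := ha
  clear ha
  induction ha' with
  | refl => exact hv
  | tail _ h2 ih => exact hTc _ ih _ h2.1 h2.2.1

/-- The part of `T` with finite clusters. -/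
def T1 (G : SimpleGraph V) (T : Set V) (O : V → Set V) : Set V :=
  {v | v ∈ T ∧ ∀ a ∈ comp G v, a ∈ Crit G T O → (Cluster G T O a).Finite}

lemma T1_comp (hT : ∀ v ∈ T, ¬ Inf G v) (hTc : ∀ v ∈ T, ∀ w, G.Adj v w → ¬ Inf G w → w ∈ T)
    {v a : V} (hv : v ∈ T1 G T O) (ha : a ∈ comp G v) : a ∈ T1 G T O := by
  refine ⟨comp_T hTc hv.1 ha, fun b hb => hv.2 b ?_⟩
  rw [comp_eq (hT v hv.1) ha] at hb
  exact hb

lemma T1_adj (hT : ∀ v ∈ T, ¬ Inf G v) (hTc : ∀ v ∈ T, ∀ w, G.Adj v w → ¬ Inf G w → w ∈ T)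
    {v a : V} (hv : v ∈ T1 G T O) (ha : G.Adj v a) (haI : ¬ Inf G a) : a ∈ T1 G T O :=
  T1_comp hT hTc hv (Relation.ReflTransGen.single ⟨ha, haI, Set.notMem_empty _⟩)

lemma cluster_T1 (hT : ∀ v ∈ T, ¬ Inf G v) (hTc : ∀ v ∈ T, ∀ w, G.Adj v w → ¬ Inf G w → w ∈ T)
    {v a : V} (hv : v ∈ T1 G T O) (ha : a ∈ Cluster G T O v) : a ∈ T1 G T O := by
  have ha' : Relation.ReflTransGen (fun p q => G.Adj p q ∧ q ∈ Crit G T O) v a := ha
  clear ha
  induction ha' with
  | refl => exact hv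
  | tail _ h2 ih => exact T1_adj hT hTc ih h2.1 (hT _ h2.2.1)

lemma cluster_finite (hT : ∀ v ∈ T, ¬ Inf G v) {v : V} (hv : v ∈ T1 G T O) :
    (Cluster G T O v).Finite := by
  have h1 : (⋃ a ∈ {a | G.Adj v a ∧ a ∈ Crit G T O}, Cluster G T O a).Finite := by
    refine Set.Finite.biUnion ?_ ?_
    · exact (Set.not_infinite.1 (hT v hv.1)).subset fun a ha => ha.1
    · intro a ha
      exact hv.2 a (Relation.ReflTransGen.single ⟨ha.1, hT a ha.2.1, Set.notMem_empty _⟩) ha.2
  refine ((Set.finite_singleton v).union h1).subset ?_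
  intro a ha
  rcases Relation.ReflTransGen.cases_head ha with h | ⟨b, hb, hba⟩
  · exact Or.inl h.symm
  · exact Or.inr (Set.mem_biUnion (show b ∈ {a | G.Adj v a ∧ a ∈ Crit G T O} from hb) hba)

lemma cluster_back {w d : V} (h : d ∈ Cluster G T O w) :
    w = d ∨ (d ∈ Crit G T O ∧ ∃ q ∈ Cluster G T O d, G.Adj w q) := by
  have h' : Relation.ReflTransGen (fun p q => G.Adj p q ∧ q ∈ Crit G T O) w d := h
  clear h
  induction h' with
  | refl => exact Or.inl rfl
  | tail h1 h2 ih =>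
    rename_i b c
    right
    refine ⟨h2.2, ?_⟩
    rcases ih with ih | ⟨hb, q, hq, hwq⟩
    · subst ih
      exact ⟨c, Relation.ReflTransGen.refl, h2.1⟩
    · exact ⟨q, Relation.ReflTransGen.head ⟨h2.1.symm, hb⟩ hq, hwq⟩

/-- The clusters as finite sets. -/
noncomputable def Kc (G : SimpleGraph V) (T : Set V) (O : V → Set V) (v : V) : Finset V :=
  fs (Cluster G T O v)

lemma mem_Kc (hT : ∀ v ∈ T, ¬ Inf G v) {v a : V} (hv : v ∈ T1 G T O) :
    a ∈ Kc G T O v ↔ a ∈ Cluster G T O v := mem_fs (cluster_finite hT hv)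

lemma clu (hT : ∀ v ∈ T, ¬ Inf G v) (hTc : ∀ v ∈ T, ∀ w, G.Adj v w → ¬ Inf G w → w ∈ T) :
    Clu (Gk G T O) (T1 G T O) (Kc G T O) := by
  refine ⟨fun x hx => not_inf_gk (hT x hx.1), fun w hw => ?_, fun w hw x hx => ?_,
    fun x hx => ?_⟩
  · rw [mem_Kc hT hw]
    exact Relation.ReflTransGen.refl
  · exact cluster_T1 hT hTc hw ((mem_Kc hT hw).1 hx)
  · have h0 : ({d | d = x ∨ (G.Adj x d ∧ d ∈ T1 G T O)}).Finite := by
      refine ((Set.finite_singleton x).union (Set.not_infinite.1 (hT x hx.1))).subset ?_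
      rintro d (h | h)
      · exact Or.inl h
      · exact Or.inr h.1
    have h1 : (⋃ d ∈ {d | d = x ∨ (G.Adj x d ∧ d ∈ T1 G T O)},
        ({d} ∪ ⋃ q ∈ {q | q ∈ Cluster G T O d}, G.neighborSet q)).Finite := by
      refine h0.biUnion fun d hd => (Set.finite_singleton d).union ?_
      have hd1 : d ∈ T1 G T O := by
        rcases hd with rfl | hd
        · exact hx
        · exact hd.2
      refine Set.Finite.biUnion (cluster_finite hT hd1) fun q hq => ?_
      exact Set.not_infinite.1 (hT q (cluster_T1 hT hTc hd1 hq).1)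
    refine h1.subset ?_
    rintro w ⟨hw, ht⟩
    have key : ∀ d, (d = x ∨ (G.Adj x d ∧ d ∈ T1 G T O)) → d ∈ Cluster G T O w →
        w ∈ (⋃ d ∈ {d | d = x ∨ (G.Adj x d ∧ d ∈ T1 G T O)},
        ({d} ∪ ⋃ q ∈ {q | q ∈ Cluster G T O d}, G.neighborSet q)) := by
      intro d hd hdw
      refine Set.mem_biUnion (show d ∈ {d | d = x ∨ (G.Adj x d ∧ d ∈ T1 G T O)} from hd) ?_
      rcases cluster_back hdw with h2 | ⟨_, q, hq, hwq⟩
      · exact Or.inl h2
      · exact Or.inr (Set.mem_biUnion (show q ∈ {q | q ∈ Cluster G T O d} from hq) hwq.symm)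
    rcases ht with ht | ⟨d, hd, hdx⟩
    · exact key x (Or.inl rfl) ((mem_Kc hT hw).1 ht)
    · have hdw := (mem_Kc hT hw).1 hd
      exact key d (Or.inr ⟨(gk_le _ _ hdx).symm, cluster_T1 hT hTc hw hdw⟩) hdw

lemma Rep.congr {Γ : SimpleGraph V} {S : Set V} {K : V → Finset V} (hC : Clu Γ S K)
    {c c' : V → Bool} (h : ∀ D : Finset V, (∀ x ∈ D, x ∈ S) → E Γ c' D = E Γ c D)
    (hR : Rep Γ S K c) : Rep Γ S K c' := by
  refine ⟨fun w hw D hD => ?_, fun m Q hQ => ?_⟩
  · rw [h D fun x hx => hC.sub w hw x (hD hx)]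
    exact hR.1 w hw D hD
  · obtain ⟨e, S', h1, h2, h3⟩ := hR.2 m Q hQ
    refine ⟨e, S', h1, h2, fun D hD => ?_⟩
    rw [h D fun x hx => hC.ly_sub h2 _ x (hD hx)]
    exact h3 D hD

theorem main [Countable V] (G : SimpleGraph V) (X T : Set V) (O : V → Set V) (hX : X.Finite)
    (hT : ∀ v ∈ T, ¬ Inf G v) (hTc : ∀ v ∈ T, ∀ w, G.Adj v w → ¬ Inf G w → w ∈ T)
    (hO : ∀ v ∈ T, O v ⊆ IN G X v)
    (hO2 : ∀ v ∈ T, (O v).encard ≤ 1 ∨ ((O v).encard ≤ 2 ∧ Even (G.neighborSet v).ncard))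
    (h1 : ∀ u, Inf G u → u ∉ X → {v | G.Adj u v ∧ v ∈ T ∧ u ∉ O v}.Finite)
    (h2 : ∀ v ∈ T, {a | a ∈ comp G v ∧ ¬ IN G X a ⊆ O a}.Finite ∨
      ∀ a ∈ comp G v, a ∈ Crit G T O → (Cluster G T O a).Finite)
    (h3 : {u | Inf G u ∧ ¬ {x | G.Adj u x ∧ (Inf G x ∨ x ∈ T)}.Infinite}.Finite) :
    ∃ c : V → Bool, Unfriendly G c := by
  obtain ⟨f, hf⟩ := exists_injective_nat V
  set Γ := Gk G T O with hΓ
  set P : Set V := {u | Inf G u ∧ u ∉ X} with hP
  set S2 : Set V := {v | v ∈ T ∧ v ∉ T1 G T O} with hS2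
  have hC := clu (O := O) hT hTc
  have hHyp : Hyp Γ (T1 G T O) P (Kc G T O) f := by
    refine ⟨hf, hC, fun x hx hxP => hT x hx.1 hxP.1, fun u hu => ?_⟩
    refine (h1 u hu.1 hu.2).subset ?_
    rintro v ⟨hv, huv⟩
    exact ⟨huv.1, hv.1, fun h => huv.2.2 ⟨hv.1, h⟩⟩
  have hCalm : Calm Γ S2 P (comp G) := by
    refine ⟨fun x hx => not_inf_gk (hT x hx.1), fun x hx hxP => hT x hx.1 hxP.1,
      fun v _ => mem_comp_self v, fun v hv a ha => ⟨comp_T hTc hv.1 ha, fun ha1 => ?_⟩,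
      fun v hv a ha => comp_eq (hT v hv.1) ha, fun v hv a ha b hb hab => ?_, fun v hv => ?_,
      fun u hu => ?_⟩
    · exact hv.2 (T1_comp hT hTc ha1 (comp_symm (hT v hv.1) ha))
    · exact Relation.ReflTransGen.tail ha ⟨hab.1, hT b hb.1, Set.notMem_empty _⟩
    · have h4 : {a | a ∈ comp G v ∧ ¬ IN G X a ⊆ O a}.Finite := by
        rcases h2 v hv.1 with h4 | h4
        · exact h4
        · exact absurd ⟨hv.1, h4⟩ hv.2
      refine h4.subset ?_
      rintro a ⟨ha, u, hu, hau⟩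
      refine ⟨ha, fun hsub => hau.2.1 ⟨comp_T hTc hv.1 ha, hsub ⟨hau.1, hu.1, hu.2⟩⟩⟩
    · refine (h1 u hu.1 hu.2).subset ?_
      rintro v ⟨hv, huv⟩
      exact ⟨huv.1, hv.1, fun h => huv.2.2 ⟨hv.1, h⟩⟩
  obtain ⟨φ, hφ0, hφ⟩ := ground (Γ := Γ) (T := S2) hCalm.fin (fun _ => false)
  set Cf := Cx Γ S2 P (comp G) φ with hCf
  -- infinitely many counted neighbours
  have hNbinf : ∀ u, Inf G u → u ∉ X → {x | G.Adj u x ∧ (Inf G x ∨ x ∈ T)}.Infinite →
      (Nb G T O u).Infinite := by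
    intro u hu huX hinf
    refine (hinf.sdiff (h1 u hu huX)).mono ?_
    rintro x ⟨⟨hx1, hx2⟩, hx3⟩
    refine ⟨hx1, ?_⟩
    rcases hx2 with hx2 | hx2
    · exact Or.inl hx2
    · refine Or.inr ⟨hx2, ?_⟩
      by_contra hn
      exact hx3 ⟨hx1, hx2, hn⟩
  obtain ⟨c0, hR0, hc0, hsel⟩ := hHyp.dyn Cf (Cx_local hCalm)
    (fun j hj z => Cx_finite hCalm hj z) (Nb G T O)
    {u | Inf G u ∧ u ∉ X ∧ (Nb G T O u).Infinite} (fun u hu => ⟨hu.1, hu.2.1⟩)
    (fun u hu => hu.2.2)
  set g0 := glu (T1 G T O) P Cf c0 with hg0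
  -- the other vertices of finite degree
  set J0 : Set V := {v | ¬ Inf G v ∧ v ∉ T} with hJ0
  obtain ⟨c1, hc1, hg1⟩ := ground (Γ := Γ) (T := J0) (fun x hx => not_inf_gk hx.1) g0
  have hg0T : ∀ v, v ∈ T1 G T O ∨ v ∈ P → g0 v = c0 v := fun v hv => if_pos hv
  have hg0n : ∀ v, ¬ (v ∈ T1 G T O ∨ v ∈ P) → g0 v = Cf (pz P c0) v := fun v hv => if_neg hv
  have hT1E : ∀ D : Finset V, (∀ x ∈ D, x ∈ T1 G T O) → E Γ c1 D = E Γ c0 D := by
    intro D hD
    refine E_congr (fun x hx => ?_) fun x hx y hy => ?_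
    · rw [hc1 x (fun h => h.2 (hD x hx).1), hg0T x (Or.inl (hD x hx))]
    · have hxT := hD x hx
      have hadj := (mem_nb Γ (hC.fin x hxT)).1 hy
      by_cases hyI : Inf G y
      · rw [hc1 y (fun h => h.1 hyI)]
        by_cases hyP : y ∈ P
        · exact hg0T y (Or.inr hyP)
        · have hyT1 : y ∉ T1 G T O := fun h => hT y h.1 hyI
          rw [hg0n y (fun h => h.elim hyT1 hyP), hCf,
            Cx_out (fun h => hT y h.1 hyI) hyP, hφ0 y (fun h => hT y h.1 hyI)]
          exact (hc0 y hyT1 hyP).symm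
      · have hyT1 := T1_adj hT hTc hxT (gk_le _ _ hadj) hyI
        rw [hc1 y (fun h => h.2 hyT1.1), hg0T y (Or.inl hyT1)]
  have hS2E : ∀ D : Finset V, (∀ x ∈ D, x ∈ S2) → E Γ c1 D = E Γ (Cf (pz P c0)) D := by
    intro D hD
    have hxx : ∀ x, x ∈ S2 → c1 x = Cf (pz P c0) x := by
      intro x hx
      rw [hc1 x (fun h => h.2 hx.1), hg0n x]
      rintro (h | h)
      · exact hx.2 h
      · exact hT x hx.1 h.1
    refine E_congr (fun x hx => hxx x (hD x hx)) fun x hx y hy => ?_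
    have hxS := hD x hx
    have hadj := (mem_nb Γ (hCalm.fin x hxS)).1 hy
    by_cases hyI : Inf G y
    · rw [hc1 y (fun h => h.1 hyI)]
      by_cases hyP : y ∈ P
      · rw [hg0T y (Or.inr hyP), hCf, Cx_petal hCalm hyP]
        exact (if_pos hyP).symm
      · rw [hg0n y]
        rintro (h | h)
        · exact hT y h.1 hyI
        · exact hyP h
    · refine hxx y ⟨hTc x hxS.1 y (gk_le _ _ hadj) hyI, fun h => hxS.2 ?_⟩
      exact T1_adj hT hTc h (gk_le _ _ hadj).symm (hT x hxS.1)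
  -- the exceptional vertices
  have hEfin : ({u | Inf G u ∧ ¬ (Nb G T O u).Infinite} ∪ (X ∩ {u | Inf G u})).Finite := by
    refine ((h3.union hX).union (hX.inter_of_left {u | Inf G u})).subset ?_
    rintro u (hu | hu)
    · left
      by_cases huX : u ∈ X
      · exact Or.inr huX
      · exact Or.inl ⟨hu.1, fun h => hu.2 (hNbinf u hu.1 huX h)⟩
    · exact Or.inr hu
  set E0 : Finset V := hEfin.toFinset with hE0
  have hEmem : ∀ u, u ∈ E0 ↔ (Inf G u ∧ ¬ (Nb G T O u).Infinite) ∨ (u ∈ X ∧ Inf G u) := by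
    intro u
    rw [hE0, Set.Finite.mem_toFinset]
    rfl
  have hEG : ∀ w ∈ E0, Inf G w := by
    intro w hw
    rcases (hEmem w).1 hw with h | h
    · exact h.1
    · exact h.2
  have hEO : ∀ w ∈ E0, {x | x ∈ T ∧ w ∈ O x}.Finite := by
    intro w hw
    rcases (hEmem w).1 hw with h | h
    · refine (Set.not_infinite.1 h.2).subset ?_
      rintro x ⟨hx1, hx2⟩
      exact ⟨(hO x hx1 hx2).1.symm, Or.inr ⟨hx1, hx2⟩⟩
    · refine Set.finite_empty.subset ?_
      rintro x ⟨hx1, hx2⟩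
      exact absurd h.1 (hO x hx1 hx2).2.2
  have hs : Sys G Γ T (T1 G T O) O (Crit G T O) (Kc G T O) E0 := by
    refine ⟨gk_le, hC, fun x hx => hx.1, hT, fun x hx y hxy hy =>
      T1_adj hT hTc hx (gk_le _ _ hxy) hy, fun v hv => hv.1, fun v hv => hv.2.1,
      fun v hv u hu => (hO v hv hu).2.1, fun w hw d hd v hv hdv => ?_, hEG, fun w hw => ?_, hEO⟩
    · rw [mem_Kc hT hw] at hd ⊢
      exact Relation.ReflTransGen.tail hd ⟨gk_le _ _ hdv, hv⟩
    · refine Set.Infinite.mono ?_ (Set.Infinite.sdiff (hEG w hw) (hEO w hw))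
      rintro x ⟨hx1, hx2⟩
      exact ⟨hx1, fun h => hT w h.1 (hEG w hw), fun h => hx2 h⟩
  have hStt : Stt G Γ T (T1 G T O) O (Kc G T O) E0 c1 := by
    refine ⟨Rep.congr hC hT1E hR0, fun D hD => ?_, fun u hu huE => ?_⟩
    · have hUn : D = D.filter (· ∈ T) ∪ D.filter (· ∉ T) :=
        (Finset.filter_union_filter_not_eq (· ∈ T) D).symm
      have hdis : Disjoint (D.filter (· ∈ T)) (D.filter (· ∉ T)) := by
        rw [Finset.disjoint_left]
        intro x hx hx'
        exact (mem_filter.1 hx').2 (mem_filter.1 hx).2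
      rw [hUn, E_union_sep hdis (fun x hx => not_inf_gk (hD x (mem_filter.1 hx).1).1)
        (fun x hx => not_inf_gk (hD x (mem_filter.1 hx).1).1)]
      · refine add_nonneg ?_ (hg1 _ fun x hx =>
          ⟨(hD x (mem_filter.1 hx).1).1, (mem_filter.1 hx).2⟩)
        have hsub : ∀ x ∈ D.filter (· ∈ T), x ∈ S2 := fun x hx =>
          ⟨(mem_filter.1 hx).2, (hD x (mem_filter.1 hx).1).2⟩
        rw [hS2E _ hsub]
        exact Cx_ground hCalm hφ _ _ _ le_rfl hsub
      · intro x hx y hy hxy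
        exact (mem_filter.1 hy).2 (hTc x (mem_filter.1 hx).2 y (gk_le _ _ hxy)
          (hD y (mem_filter.1 hy).1).1)
    · have huX : u ∉ X := fun h => huE ((hEmem u).2 (Or.inr ⟨h, hu⟩))
      have hNu : (Nb G T O u).Infinite := by
        by_contra h
        exact huE ((hEmem u).2 (Or.inl ⟨hu, h⟩))
      refine (hsel u ⟨hu, huX, hNu⟩).mono ?_
      rintro v ⟨hv1, hv2⟩
      refine ⟨hv1, ?_⟩
      rw [hc1 u (fun h => h.1 hu), hg0T u (Or.inr ⟨hu, huX⟩), hc1 v]
      · exact hv2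
      · rintro ⟨h4, h5⟩
        rcases hv1.2 with h6 | h6
        · exact h4 h6
        · exact h5 h6.1
  obtain ⟨c, hc, hrel, hhap⟩ := hs.process _ c1 hStt le_rfl
  refine ⟨c, unfriendly_of_sums ?_ ?_⟩
  · intro v hv
    have hv1 : ¬ Inf Γ v := not_inf_gk hv
    have he0 : 0 ≤ E Γ c {v} := by
      by_cases hvT : v ∈ T1 G T O
      · exact hc.1.1 v hvT {v} (by
          rw [Finset.singleton_subset_iff]
          exact hC.self v hvT)
      · exact hc.2.1 {v} (by
          intro x hx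
          rw [Finset.mem_singleton] at hx
          rw [hx]
          exact ⟨hv, hvT⟩)
    have he : 0 ≤ ∑ y ∈ nb Γ v, eps Set.univ c v y := by
      rw [← en_single]
      exact he0
    have hsub : nb Γ v ⊆ nb G v := by
      intro y hy
      rw [mem_nb _ hv1] at hy
      rw [mem_nb _ hv]
      exact hy.1
    by_cases hvT : v ∈ T
    · set B : Finset V := (nb G v).filter (fun y => y ∈ O v) with hB
      have hBmem : ∀ y, y ∈ B ↔ y ∈ O v := by
        intro y
        rw [hB, mem_filter, mem_nb _ hv]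
        exact ⟨fun h => h.2, fun h => ⟨(hO v hvT h).1, h⟩⟩
      have hBset : O v = (B : Set V) := by
        ext y
        rw [Finset.mem_coe, hBmem]
      have hBcard : (O v).encard = (B.card : ℕ∞) := by
        rw [hBset, Set.encard_coe_eq_coe_finsetCard]
      have hBncard : (O v).ncard = B.card := by
        rw [hBset, Set.ncard_coe_finset]
      have hNcard : (G.neighborSet v).ncard = (nb G v).card := by
        rw [← Set.ncard_coe_finset]
        congr 1
        ext y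
        rw [Finset.mem_coe, mem_nb _ hv]
        rfl
      have hl : B.card ≤ 1 ∨ (B.card ≤ 2 ∧ Even (nb G v).card) := by
        rcases hO2 v hvT with h4 | ⟨h4, h5⟩
        · left
          rw [hBcard] at h4
          exact_mod_cast h4
        · right
          rw [hBcard] at h4
          rw [hNcard] at h5
          exact ⟨by exact_mod_cast h4, h5⟩
      have hN1 : nb Γ v = nb G v \ B := by
        ext y
        rw [mem_sdiff, mem_nb _ hv, mem_nb _ hv1, hBmem]
        constructor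
        · intro hy
          exact ⟨hy.1, fun h => hy.2.1 ⟨hvT, h⟩⟩
        · rintro ⟨hy1, hy2⟩
          exact ⟨hy1, fun h => hy2 h.2, fun h => hv (hO y h.1 h.2).2.1⟩
      have hBsub : B ⊆ nb G v := Finset.filter_subset _ _
      have hcards : (nb G v).card = (nb Γ v).card + B.card := by
        rw [hN1, Finset.card_sdiff_of_subset hBsub]
        have := Finset.card_le_card hBsub
        omega
      have hBD : ∀ y ∈ nb G v, y ∉ nb Γ v → y ∈ B := by
        intro y hy hyn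
        rw [hN1, mem_sdiff] at hyn
        by_contra h
        exact hyn ⟨hy, h⟩
      obtain ⟨s1, s2, s3⟩ := light_sum hsub hBD hl he
      by_cases hvU : v ∈ Unp O (Crit G T O) c
      · by_contra hneg
        refine hrel v hvU ?_
        show en Γ (eps Set.univ c) {v} = 0
        rw [en_single]
        exact s3 (fun u hu => hvU.2 u ((hBmem u).1 hu)) (not_le.1 hneg)
      · by_cases hex : ∃ u ∈ O v, c u ≠ c v
        · obtain ⟨u, hu, hne⟩ := hex
          exact s1 ⟨u, (hBmem u).2 hu, hne⟩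
        · push Not at hex
          by_cases hne : (O v).Nonempty
          · have hcr : v ∉ Crit G T O := fun h => hvU ⟨h, hex⟩
            have hpar : ¬ Even ((nb G v).card + B.card) := by
              intro hpar
              refine hcr ⟨hvT, hne, ?_⟩
              rw [hNcard, hBncard]
              exact hpar
            by_contra hneg
            have h0 := s3 (fun u hu => hex u ((hBmem u).1 hu)) (not_le.1 hneg)
            have hev : Even (∑ y ∈ nb Γ v, eps Set.univ c v y) := by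
              rw [h0]; exact Even.zero
            rw [even_sum_eps] at hev
            refine hpar ?_
            rw [hcards]
            obtain ⟨k, hk⟩ := hev
            exact ⟨k + B.card, by omega⟩
          · refine s2 fun u hu => ?_
            exact absurd ⟨u, (hBmem u).1 hu⟩ hne
    · have heq : nb Γ v = nb G v := by
        refine subset_antisymm hsub fun y hy => ?_
        rw [mem_nb _ hv] at hy
        rw [mem_nb _ hv1]
        exact ⟨hy, fun h => hvT h.1, fun h => hv (hO y h.1 h.2).2.1⟩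
      rw [← heq]
      exact he
  · intro u hu
    by_cases huE : u ∈ E0
    · refine (hhap u huE).mono ?_
      rintro y ⟨h4, h5⟩
      exact ⟨h4.1, h5⟩
    · refine (hc.2.2 u hu huE).mono ?_
      rintro y ⟨h4, h5⟩
      exact ⟨h4.1, h5⟩

end UnfW
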