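import Pool.Agent.Work.MP_1aab6d_co_w.Top
import Pool.Agent.Work.MP_1aab6d_co_w.Calm

/-!
# The finite process: relaxations and flips
-/

set_option autoImplicit false

namespace UnfW

open Finset Classical Unf UnfL

variable {V : Type*}

/-- Maximal relaxations with respect to a family of sets of nonnegative energy. -/
theorem exists_relaxed' {Γ : SimpleGraph V} {c0 : V → Bool} (F : Set (Finset V))
    (hc0 : ∀ D ∈ F, 0 ≤ E Γ c0 D) (A : Set V) (hA : ∀ v ∈ A, ¬ Inf Γ v)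
    (hF : ∀ D ∈ F, ∀ x ∈ D, ¬ Inf Γ x)
    (hcl : ∀ v ∈ A, ∀ D ∈ F, (v ∈ D ∨ ∃ d ∈ D, Γ.Adj d v) → symmDiff {v} D ∈ F) :
    ∃ R, R ⊆ A ∧ (∀ D ∈ F, 0 ≤ E Γ (flpS c0 R) D) ∧
      ∀ v ∈ A, v ∉ R → E Γ (flpS c0 R) {v} ≠ 0 := by
  obtain ⟨R, -, hR⟩ := zorn_subset_nonempty
    {R : Set V | R ⊆ A ∧ ∀ D ∈ F, 0 ≤ E Γ (flpS c0 R) D} (by
    intro C hC hchain hne
    refine ⟨⋃₀ C, ⟨Set.sUnion_subset fun R hR => (hC hR).1, ?_⟩,
      fun s hs => Set.subset_sUnion_of_mem hs⟩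
    have key : ∀ T : Finset V, ∃ R ∈ C, ∀ v ∈ T, v ∈ ⋃₀ C → v ∈ R := by
      intro T
      induction T using Finset.induction_on with
      | empty => obtain ⟨R, hR⟩ := hne; exact ⟨R, hR, by simp⟩
      | insert a T ha ih =>
        obtain ⟨R, hR, hRT⟩ := ih
        by_cases haC : a ∈ ⋃₀ C
        · obtain ⟨R', hR', haR'⟩ := haC
          rcases hchain.total hR hR' with h | h
          · refine ⟨R', hR', fun v hv hvC => ?_⟩
            rcases Finset.mem_insert.1 hv with rfl | hv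
            · exact haR'
            · exact h (hRT v hv hvC)
          · refine ⟨R, hR, fun v hv hvC => ?_⟩
            rcases Finset.mem_insert.1 hv with rfl | hv
            · exact h haR'
            · exact hRT v hv hvC
        · refine ⟨R, hR, fun v hv hvC => ?_⟩
          rcases Finset.mem_insert.1 hv with rfl | hv
          · exact absurd hvC haC
          · exact hRT v hv hvC
    intro D hD
    obtain ⟨R, hR, hRT⟩ := key (D ∪ D.biUnion (fun x => nb Γ x))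
    have hval : ∀ v ∈ D ∪ D.biUnion (fun x => nb Γ x), flpS c0 (⋃₀ C) v = flpS c0 R v := by
      intro v hv
      by_cases hvC : v ∈ ⋃₀ C
      · rw [flpS_of_mem hvC, flpS_of_mem (hRT v hv hvC)]
      · rw [flpS_of_not_mem hvC, flpS_of_not_mem (fun h => hvC ⟨R, hR, h⟩)]
    have e1 : E Γ (flpS c0 (⋃₀ C)) D = E Γ (flpS c0 R) D :=
      E_congr (fun x hx => hval x (mem_union_left _ hx))
        fun x hx y hy => hval y (mem_union_right _ (mem_biUnion.2 ⟨x, hx, hy⟩))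
    rw [e1]
    exact (hC hR).2 D hD) ∅
    ⟨Set.empty_subset _, by
      have : flpS c0 ∅ = c0 := by funext v; exact flpS_of_not_mem (Set.notMem_empty v)
      rw [this]; exact hc0⟩
  refine ⟨R, hR.1.1, hR.1.2, fun v hv hvR h0 => ?_⟩
  have hvI := hA v hv
  have hmem : insert v R ∈ {R : Set V | R ⊆ A ∧ ∀ D ∈ F, 0 ≤ E Γ (flpS c0 R) D} := by
    refine ⟨Set.insert_subset hv hR.1.1, fun D hD => ?_⟩
    rw [← flp_flpS c0 R hvR]
    by_cases ht : v ∈ D ∨ ∃ d ∈ D, Γ.Adj d v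
    · have e1 := en_flp (G := Γ) (flpS c0 R) {v} D (by simpa using hvI) (hF D hD)
      have e2 : E Γ (flp (flpS c0 R) {v}) D
          = E Γ (flpS c0 R) (symmDiff {v} D) - E Γ (flpS c0 R) {v} := e1
      rw [e2, h0, sub_zero]
      exact hR.1.2 _ (hcl v hv D hD ht)
    · rw [not_or] at ht
      have e1 : E Γ (flp (flpS c0 R) {v}) D = E Γ (flpS c0 R) D := by
        refine E_congr (fun x hx => flp_of_not_mem ?_) fun x hx y hy => flp_of_not_mem ?_
        · rw [Finset.mem_singleton]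
          rintro rfl
          exact ht.1 hx
        · rw [Finset.mem_singleton]
          rintro rfl
          exact ht.2 ⟨x, hx, (mem_nb Γ (hF D hD x hx)).1 hy⟩
      rw [e1]
      exact hR.1.2 D hD
  exact hvR (hR.2 hmem (Set.subset_insert _ _) (Set.mem_insert _ _))

/-- The standing hypotheses of the process. -/
structure Sys (G Γ : SimpleGraph V) (T T1 : Set V) (O : V → Set V) (Cr : Set V)
    (K : V → Finset V) (E0 : Finset V) : Prop where
  le : ∀ a b, Γ.Adj a b → G.Adj a b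
  clu : Clu Γ T1 K
  T1T : ∀ x ∈ T1, x ∈ T
  Tfin : ∀ x ∈ T, ¬ Inf G x
  T1cl : ∀ x ∈ T1, ∀ y, Γ.Adj x y → ¬ Inf G y → y ∈ T1
  CrT : ∀ v ∈ Cr, v ∈ T
  CrO : ∀ v ∈ Cr, (O v).Nonempty
  Oinf : ∀ v ∈ T, ∀ u ∈ O v, Inf G u
  KCr : ∀ w ∈ T1, ∀ d ∈ K w, ∀ v ∈ Cr, Γ.Adj d v → v ∈ K w
  E0G : ∀ w ∈ E0, Inf G w
  E0Γ : ∀ w ∈ E0, Inf Γ w
  E0O : ∀ w ∈ E0, {x | x ∈ T ∧ w ∈ O x}.Finite

/-- The critical vertices whose owners all have the colour of the vertex. -/
def Unp (O : V → Set V) (Cr : Set V) (c : V → Bool) : Set V :=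
  {v | v ∈ Cr ∧ ∀ u ∈ O v, c u = c v}

/-- The neighbours of `u` which are counted. -/
def Nb (G : SimpleGraph V) (T : Set V) (O : V → Set V) (u : V) : Set V :=
  {x | G.Adj u x ∧ (Inf G x ∨ (x ∈ T ∧ u ∈ O x))}

/-- The states of the process. -/
def Stt (G Γ : SimpleGraph V) (T T1 : Set V) (O : V → Set V) (K : V → Finset V) (E0 : Finset V)
    (c : V → Bool) : Prop :=
  Rep Γ T1 K c ∧ (∀ D : Finset V, (∀ x ∈ D, ¬ Inf G x ∧ x ∉ T1) → 0 ≤ E Γ c D) ∧
    ∀ u, Inf G u → u ∉ E0 → {y | y ∈ Nb G T O u ∧ c y ≠ c u}.Infinite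

/-- The weight of an exceptional vertex. -/
noncomputable def wt (Γ : SimpleGraph V) (O : V → Set V) (Cr : Set V) (c : V → Bool) (w : V) : ℕ :=
  if {y | Γ.Adj w y ∧ y ∉ Unp O Cr c ∧ c y ≠ c w}.Infinite then 0 else
    if {y | Γ.Adj w y ∧ y ∉ Unp O Cr c}.Infinite then 1 else
      if {y | Γ.Adj w y ∧ c y = c w}.Finite then 2 else 3

variable {G Γ : SimpleGraph V} {T T1 : Set V} {O : V → Set V} {Cr : Set V} {K : V → Finset V}
  {E0 : Finset V} {c c' : V → Bool}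

/-- Transfer of the weight. -/
lemma wt_le_of {w : V}
    (h0 : {y | Γ.Adj w y ∧ y ∉ Unp O Cr c ∧ c y ≠ c w}.Infinite →
      {y | Γ.Adj w y ∧ y ∉ Unp O Cr c' ∧ c' y ≠ c' w}.Infinite)
    (h1 : {y | Γ.Adj w y ∧ y ∉ Unp O Cr c}.Infinite →
      {y | Γ.Adj w y ∧ y ∉ Unp O Cr c'}.Infinite)
    (h2 : {y | Γ.Adj w y ∧ y ∉ Unp O Cr c'}.Finite → {y | Γ.Adj w y ∧ c y = c w}.Finite →
      {y | Γ.Adj w y ∧ c' y = c' w}.Finite) :
    wt Γ O Cr c' w ≤ wt Γ O Cr c w := by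
  unfold wt
  by_cases a0 : {y | Γ.Adj w y ∧ y ∉ Unp O Cr c ∧ c y ≠ c w}.Infinite
  · rw [if_pos a0, if_pos (h0 a0)]
  rw [if_neg a0]
  by_cases b0 : {y | Γ.Adj w y ∧ y ∉ Unp O Cr c' ∧ c' y ≠ c' w}.Infinite
  · rw [if_pos b0]; exact Nat.zero_le _
  rw [if_neg b0]
  by_cases a1 : {y | Γ.Adj w y ∧ y ∉ Unp O Cr c}.Infinite
  · rw [if_pos a1, if_pos (h1 a1)]
  rw [if_neg a1]
  by_cases b1 : {y | Γ.Adj w y ∧ y ∉ Unp O Cr c'}.Infinite
  · rw [if_pos b1]
    split_ifs <;> norm_num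
  rw [if_neg b1]
  by_cases a2 : {y | Γ.Adj w y ∧ c y = c w}.Finite
  · rw [if_pos a2, if_pos (h2 (Set.not_infinite.1 b1) a2)]
  rw [if_neg a2]
  split_ifs <;> norm_num

lemma bool_ne {b : Bool} (h : (!b) = b) : False := by cases b <;> simp at h

lemma Sys.infΓ (hs : Sys G Γ T T1 O Cr K E0) {x : V} (hx : ¬ Inf G x) : ¬ Inf Γ x := fun h =>
  hx (Set.Infinite.mono (fun y hy => hs.le x y hy) h)

/-- Sets of critical vertices have nonnegative energy. -/
lemma Sys.crit_nonneg (hs : Sys G Γ T T1 O Cr K E0) (hc : CG Γ T1 K c) (n : ℕ) :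
    ∀ B : Finset V, B.card ≤ n → (∀ x ∈ B, x ∈ T1 ∧ x ∈ Cr) → 0 ≤ E Γ c B := by
  induction n with
  | zero =>
    intro B hB _
    have : B = ∅ := Finset.card_eq_zero.1 (Nat.le_zero.1 hB)
    rw [this]
    exact le_of_eq (en_empty _).symm
  | succ n ih =>
    intro B hBn hB
    rcases B.eq_empty_or_nonempty with rfl | ⟨v, hv⟩
    · exact le_of_eq (en_empty _).symm
    have hvT := (hB v hv).1
    set B1 := B.filter (· ∈ K v) with hB1
    set B2 := B.filter (· ∉ K v) with hB2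
    have hU : B = B1 ∪ B2 := (Finset.filter_union_filter_not_eq (· ∈ K v) B).symm
    have hdis : Disjoint B1 B2 := by
      rw [Finset.disjoint_left]
      intro x hx hx'
      exact (mem_filter.1 hx').2 (mem_filter.1 hx).2
    have hc2 : B2.card ≤ n := by
      have h1 : B2 ⊂ B := by
        rw [Finset.ssubset_iff_of_subset (Finset.filter_subset _ _)]
        exact ⟨v, hv, fun h' => (mem_filter.1 h').2 (hs.clu.self v hvT)⟩
      have := Finset.card_lt_card h1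
      omega
    rw [hU, E_union_sep hdis (fun x hx => hs.clu.fin x (hB x (mem_filter.1 hx).1).1)
      (fun x hx => hs.clu.fin x (hB x (mem_filter.1 hx).1).1)]
    · exact add_nonneg (hc v hvT B1 fun x hx => (mem_filter.1 hx).2)
        (ih B2 hc2 fun x hx => hB x (mem_filter.1 hx).1)
    · intro x hx y hy hxy
      exact (mem_filter.1 hy).2 (hs.KCr v hvT x (mem_filter.1 hx).2 y
        (hB y (mem_filter.1 hy).1).2 hxy)

/-- Relaxation step. -/
theorem Sys.relax_step (hs : Sys G Γ T T1 O Cr K E0) (h : Stt G Γ T T1 O K E0 c) :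
    ∃ c', Stt G Γ T T1 O K E0 c' ∧ (∀ v ∈ Unp O Cr c', E Γ c' {v} ≠ 0) ∧
      ∀ w ∈ E0, wt Γ O Cr c' w ≤ wt Γ O Cr c w := by
  set F : Set (Finset V) := {D | (∃ w ∈ T1, D ⊆ K w) ∨ ∀ x ∈ D, ¬ Inf G x ∧ x ∉ T1} with hFdef
  obtain ⟨R, hRA, hRF, hmax⟩ := exists_relaxed' (Γ := Γ) (c0 := c) F (by
      rintro D (⟨w, hw, hD⟩ | hD)
      · exact h.1.1 w hw D hD
      · exact h.2.1 D hD) (Unp O Cr c) (fun v hv => hs.infΓ (hs.Tfin v (hs.CrT v hv.1))) (by
      rintro D (⟨w, hw, hD⟩ | hD) x hx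
      · exact hs.clu.fin x (hs.clu.sub w hw x (hD hx))
      · exact hs.infΓ (hD x hx).1) (by
      rintro v hv D (⟨w, hw, hD⟩ | hD) ht
      · left
        have hvK : v ∈ K w := by
          rcases ht with ht | ⟨d, hd, hdv⟩
          · exact hD ht
          · exact hs.KCr w hw d (hD hd) v hv.1 hdv
        refine ⟨w, hw, fun x hx => ?_⟩
        rw [Finset.mem_symmDiff, Finset.mem_singleton] at hx
        rcases hx with ⟨hx, _⟩ | ⟨hx, _⟩
        · rw [hx]; exact hvK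
        · exact hD hx
      · right
        have hvF : ¬ Inf G v := hs.Tfin v (hs.CrT v hv.1)
        have hvT1 : v ∉ T1 := by
          intro hvT1
          rcases ht with ht | ⟨d, hd, hdv⟩
          · exact (hD v ht).2 hvT1
          · exact (hD d hd).2 (hs.T1cl v hvT1 d hdv.symm (hD d hd).1)
        intro x hx
        rw [Finset.mem_symmDiff, Finset.mem_singleton] at hx
        rcases hx with ⟨hx, _⟩ | ⟨hx, _⟩
        · rw [hx]; exact ⟨hvF, hvT1⟩
        · exact hD x hx)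
  have hRT : ∀ v ∈ R, v ∈ T := fun v hv => hs.CrT v (hRA hv).1
  have hinf : ∀ v, Inf G v → flpS c R v = c v := fun v hv =>
    flpS_of_not_mem fun hvR => hs.Tfin v (hRT v hvR) hv
  have hU : ∀ v, v ∈ Unp O Cr (flpS c R) ↔ v ∈ Unp O Cr c ∧ v ∉ R := by
    intro v
    constructor
    · rintro ⟨h1, h4⟩
      obtain ⟨u, hu⟩ := hs.CrO v h1
      have huI : Inf G u := hs.Oinf v (hs.CrT v h1) u hu
      have hvR : v ∉ R := by
        intro hvR
        have h5 := h4 u hu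
        rw [hinf u huI, flpS_of_mem hvR, (hRA hvR).2 u hu] at h5
        exact bool_ne h5.symm
      refine ⟨⟨h1, fun u' hu' => ?_⟩, hvR⟩
      have h5 := h4 u' hu'
      rw [hinf u' (hs.Oinf v (hs.CrT v h1) u' hu'), flpS_of_not_mem hvR] at h5
      exact h5
    · rintro ⟨⟨h1, h4⟩, hvR⟩
      refine ⟨h1, fun u hu => ?_⟩
      rw [hinf u (hs.Oinf v (hs.CrT v h1) u hu), flpS_of_not_mem hvR]
      exact h4 u hu
  have hCG : CG Γ T1 K (flpS c R) := fun w hw D hD => hRF D (Or.inl ⟨w, hw, hD⟩)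
  refine ⟨flpS c R, ⟨⟨hCG, ?_⟩, fun D hD => hRF D (Or.inr hD), fun u hu huE => ?_⟩,
    fun v hv => ?_, fun w hw => ?_⟩
  · -- the layers
    intro m S hS
    obtain ⟨e, S', h1, h2, h3⟩ := h.1.2 (m + 1) S hS
    refine ⟨e, S', h1, h2, fun D hD => ?_⟩
    have hDT : ∀ x ∈ D, x ∈ T1 := fun x hx => hs.clu.ly_sub h2 _ x (hD hx)
    set U : Finset V := D.biUnion K with hUdef
    have hUT : ∀ x ∈ U, x ∈ T1 := by
      intro x hx
      rw [hUdef, mem_biUnion] at hx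
      obtain ⟨d, hd, hx⟩ := hx
      exact hs.clu.sub d (hDT d hd) x hx
    have hUcl : ∀ x ∈ U, ∀ v ∈ Cr, Γ.Adj x v → v ∈ U := by
      intro x hx v hv hxv
      rw [hUdef, mem_biUnion] at hx ⊢
      obtain ⟨d, hd, hx⟩ := hx
      exact ⟨d, hd, hs.KCr d (hDT d hd) x hx v hv hxv⟩
    have hDU : D ⊆ U := by
      intro x hx
      rw [hUdef, mem_biUnion]
      exact ⟨x, hx, hs.clu.self x (hDT x hx)⟩
    have hUL : U ⊆ Ly Γ T1 K (2 * (e + (m + 1)) + 1) S' := by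
      intro x hx
      rw [hUdef, mem_biUnion] at hx
      obtain ⟨d, hd, hx⟩ := hx
      have h4 := hs.clu.ly_tch h2 (hD hd) (w := d)
        ⟨hDT d hd, Or.inl (hs.clu.self d (hDT d hd))⟩ hx
      exact Ly_mono (by omega) h4
    set RU : Finset V := U.filter (· ∈ R) with hRU
    have hRUT : ∀ x ∈ RU, x ∈ T1 := fun x hx => hUT x (mem_filter.1 hx).1
    have hagree : ∀ B : Finset V, B ⊆ U → E Γ (flpS c R) B = E Γ (flp c RU) B := by
      intro B hB
      have hval : ∀ v, (v ∈ R → v ∈ U) → flpS c R v = flp c RU v := by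
        intro v hv
        by_cases hvR : v ∈ R
        · rw [flpS_of_mem hvR, flp_of_mem (mem_filter.2 ⟨hv hvR, hvR⟩)]
        · rw [flpS_of_not_mem hvR, flp_of_not_mem (fun h' => hvR (mem_filter.1 h').2)]
      refine E_congr (fun x hx => hval x fun _ => hB hx) fun x hx y hy => hval y fun hyR => ?_
      exact hUcl x (hB hx) y (hRA hyR).1 ((mem_nb Γ (hs.clu.fin x (hUT x (hB hx)))).1 hy)
    have e1 : E Γ (flp c RU) D = E Γ c (symmDiff RU D) - E Γ c RU :=
      en_flp c RU D (fun x hx => hs.clu.fin x (hRUT x hx)) (fun x hx => hs.clu.fin x (hDT x hx))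
    have e2 : E Γ (flp c RU) RU = E Γ c (symmDiff RU RU) - E Γ c RU :=
      en_flp c RU RU (fun x hx => hs.clu.fin x (hRUT x hx))
        (fun x hx => hs.clu.fin x (hRUT x hx))
    rw [symmDiff_self] at e2
    have e3 : E Γ c (⊥ : Finset V) = 0 := en_empty _
    rw [e3] at e2
    have e4 : 0 ≤ E Γ (flpS c R) RU := hs.crit_nonneg hCG RU.card RU le_rfl fun x hx =>
      ⟨hRUT x hx, (hRA (mem_filter.1 hx).2).1⟩
    rw [hagree RU (Finset.filter_subset _ _), e2] at e4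
    have e5 : -(e : ℤ) ≤ E Γ c (symmDiff RU D) := by
      refine h3 _ fun x hx => ?_
      rw [Finset.mem_symmDiff] at hx
      rcases hx with hx | hx
      · exact hUL (mem_filter.1 hx.1).1
      · exact hUL (hDU hx.1)
    rw [hagree D hDU, e1]
    linarith
  · refine (h.2.2 u hu huE).mono ?_
    rintro y ⟨h1, h3⟩
    refine ⟨h1, ?_⟩
    have hyR : y ∉ R := by
      intro hyR
      rcases h1.2 with h4 | h4
      · exact hs.Tfin y (hRT y hyR) h4
      · exact h3 ((hRA hyR).2 u h4.2).symm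
    rw [hinf u hu, flpS_of_not_mem hyR]
    exact h3
  · obtain ⟨h1, h2⟩ := (hU v).1 hv
    exact hmax v h1 h2
  · have hw' := hinf w (hs.E0G w hw)
    refine wt_le_of (fun h0 => h0.mono ?_) (fun h1 => h1.mono ?_) (fun h2 h3 => ?_)
    · rintro y ⟨a1, a2, a3⟩
      refine ⟨a1, fun h => a2 ((hU y).1 h).1, ?_⟩
      rw [hw', flpS_of_not_mem (fun hyR => a2 (hRA hyR))]
      exact a3
    · rintro y ⟨a1, a2⟩
      exact ⟨a1, fun h => a2 ((hU y).1 h).1⟩
    · refine (h2.union h3).subset ?_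
      rintro y ⟨a1, a2⟩
      by_cases hyR : y ∈ R
      · exact Or.inl ⟨a1, fun h => ((hU y).1 h).2 hyR⟩
      · right
        rw [hw', flpS_of_not_mem hyR] at a2
        exact ⟨a1, a2⟩

end UnfW
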