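import Pool.Agent.Work.MP_1aab6d_co_w.Dyn

/-!
# The compact space of consistent sequences
-/

set_option autoImplicit false

namespace UnfW

open Finset Classical Unf UnfL

variable {V : Type*} {Γ : SimpleGraph V} {T P : Set V} {K : V → Finset V} {f : V → ℕ}

/-- Metastable colourings on `T`: all subsets of clusters have nonnegative energy, and arbitrarily
large finite sets are surrounded by more layers than twice their excess. -/
def Rep (Γ : SimpleGraph V) (T : Set V) (K : V → Finset V) (c : V → Bool) : Prop :=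
  CG Γ T K c ∧ ∀ (m : ℕ) (S : Finset V), (∀ x ∈ S, x ∈ T) →
    ∃ (e : ℕ) (S' : Finset V), S ⊆ S' ∧ (∀ x ∈ S', x ∈ T) ∧
      ∀ D ⊆ Ly Γ T K (2 * (e + m) + 1) S', -(e : ℤ) ≤ E Γ c D

lemma continuous_E (D : Finset V) : Continuous (fun c : V → Bool => E Γ c D) := continuous_en D

lemma isClosed_St (k : ℕ) : IsClosed {y : V → Bool | St Γ T P K f k y} := by
  have : {y : V → Bool | St Γ T P K f k y} = (⋂ D ∈ {D : Finset V | D ⊆ Bk Γ T P K f k},
      {y | 0 ≤ E Γ y D}) ∩ ((⋂ D ∈ {D : Finset V | ∃ w ∈ T, D ⊆ K w}, {y | 0 ≤ E Γ y D}) ∩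
      ((⋂ u ∈ {u | u ∈ P ∧ f u < k}, {y | y u = false}) ∩
      ⋂ v ∈ {v | v ∉ T ∧ v ∉ P}, {y | y v = false})) := by
    ext y
    simp only [St, CG, Set.mem_ofPred_eq, Set.mem_inter_iff, Set.mem_iInter]
    constructor
    · rintro ⟨h1, h2, h3, h4⟩
      exact ⟨fun D hD => h1 D hD, fun D ⟨w, hw, hD⟩ => h2 w hw D hD, fun u hu => h3 u hu.1 hu.2,
        fun v hv => h4 v hv.1 hv.2⟩
    · rintro ⟨h1, h2, h3, h4⟩
      exact ⟨fun D hD => h1 D hD, fun w hw D hD => h2 D ⟨w, hw, hD⟩,
        fun u hu hk => h3 u ⟨hu, hk⟩, fun v hv hv' => h4 v ⟨hv, hv'⟩⟩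
  rw [this]
  refine IsClosed.inter ?_ (IsClosed.inter ?_ (IsClosed.inter ?_ ?_))
  · exact isClosed_biInter fun D _ => isClosed_le continuous_const (continuous_E D)
  · exact isClosed_biInter fun D _ => isClosed_le continuous_const (continuous_E D)
  · exact isClosed_biInter fun u _ => isClosed_eq (continuous_apply u) continuous_const
  · exact isClosed_biInter fun u _ => isClosed_eq (continuous_apply u) continuous_const

lemma Dk_congr {k : ℕ} {y y' : V → Bool}
    (h : ∀ v ∈ Win Γ T K (Bk Γ T P K f k ∪ Kn Γ T P f k) (Mk Γ T P f k), y v = y' v) :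
    Dk Γ T P K f k y = Dk Γ T P K f k y' := by
  unfold Dk
  refine Rc_congr fun v hv => ?_
  unfold s1
  rw [h v hv]

lemma continuous_step (k : ℕ) :
    Continuous (fun p : Bool × (V → Bool) => step Γ T P K f k p.1 p.2) := by
  rw [continuous_prod_of_discrete_left]
  intro b
  refine continuous_pi fun v => ?_
  refine cont_of_local _ (insert v (Win Γ T K (Bk Γ T P K f k ∪ Kn Γ T P f k) (Mk Γ T P f k))) ?_
  intro y y' h
  have h1 : Dk Γ T P K f k y = Dk Γ T P K f k y' :=
    Dk_congr fun w hw => h w (Finset.mem_insert_of_mem hw)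
  have h2 := h v (Finset.mem_insert_self _ _)
  show step Γ T P K f k b y v = step Γ T P K f k b y' v
  unfold step
  rw [h1]
  split_ifs
  · unfold flp s1
    rw [h2]
  · exact h2

lemma continuous_down {X : Type*} [TopologicalSpace X] {b : X → ℕ → Bool} {y : X → V → Bool}
    (hb : Continuous b) (hy : Continuous y) (n : ℕ) :
    ∀ l, Continuous (fun x => down Γ T P K f (b x) (y x) l n) := by
  induction n with
  | zero => intro l; exact hy
  | succ n ih =>
    intro l
    have h1 : Continuous (fun x => b x l) := (continuous_apply l).comp hb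
    exact (continuous_step (Γ := Γ) (T := T) (P := P) (K := K) (f := f) l).comp
      (h1.prodMk (ih (l + 1)))

lemma continuous_tog (k : ℕ) : Continuous (tog Γ T P K f k) := by
  have hb : Continuous (fun p : (ℕ → Bool) × (ℕ → V → Bool) =>
      Function.update p.1 k (!(p.1 k))) := by
    refine Continuous.update continuous_fst k ?_
    exact (continuous_of_discreteTopology (f := fun b : Bool => !b)).comp
      ((continuous_apply k).comp continuous_fst)
  have hy : ∀ l, Continuous (fun p : (ℕ → Bool) × (ℕ → V → Bool) => p.2 l) :=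
    fun l => (continuous_apply l).comp continuous_snd
  refine hb.prodMk ?_
  refine continuous_pi fun l => ?_
  by_cases hl : l ≤ k
  · simp only [hl, if_true]
    exact continuous_down hb (hy (k + 1)) _ l
  · simp only [hl, if_false]
    exact hy l

lemma isClosed_TH : IsClosed (TH Γ T P K f) := by
  have : TH Γ T P K f = ⋂ k : ℕ, ({p | St Γ T P K f k (p.2 k)} ∩
      {p | p.2 k = step Γ T P K f k (p.1 k) (p.2 (k + 1))}) := by
    ext p
    simp only [TH, Set.mem_ofPred_eq, Set.mem_iInter, Set.mem_inter_iff]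
  rw [this]
  have hy : ∀ l, Continuous (fun p : (ℕ → Bool) × (ℕ → V → Bool) => p.2 l) :=
    fun l => (continuous_apply l).comp continuous_snd
  refine isClosed_iInter fun k => IsClosed.inter ?_ ?_
  · exact (isClosed_St k).preimage (hy k)
  · refine isClosed_eq (hy k) ?_
    exact (continuous_step (Γ := Γ) (T := T) (P := P) (K := K) (f := f) k).comp
      (((continuous_apply k).comp continuous_fst).prodMk (hy (k + 1)))

lemma Hyp.nonempty_TH (h : Hyp Γ T P K f) : (TH Γ T P K f).Nonempty := by
  obtain ⟨c, h1, h2⟩ := ground h.fin (fun _ => false)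
  refine ⟨(fun _ => false, fun _ => c), fun k => ⟨⟨?_, ?_, ?_, ?_⟩, ?_⟩⟩
  · exact fun D hD => h2 D fun x hx => h.bk_sub k x (hD hx)
  · exact fun w hw D hD => h2 D fun x hx => h.clu.sub w hw x (hD hx)
  · exact fun u hu _ => h1 u fun hT => h.dis u hT hu
  · exact fun v hv _ => h1 v hv
  · rfl

/-- The petal colours of a colouring. -/
noncomputable def pz (P : Set V) (c : V → Bool) : V → Bool := fun u => if u ∈ P then c u else false

/-- Glue the colouring `c` on `T ∪ P` with the given function of the petal colours. -/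
noncomputable def glu (T P : Set V) (Cx : (V → Bool) → V → Bool) (c : V → Bool) : V → Bool :=
  fun v => if v ∈ T ∨ v ∈ P then c v else Cx (pz P c) v

/-- The multi-scale theorem. -/
theorem Hyp.dyn [Countable V] (h : Hyp Γ T P K f) (Cx : (V → Bool) → V → Bool)
    (hC1 : ∀ v, ∃ S : Finset V, ∀ z z' : V → Bool, (∀ s ∈ S, z s = z' s) → Cx z v = Cx z' v)
    (hC2 : ∀ j ∈ P, ∀ z, {v | Cx (Function.update z j (!(z j))) v ≠ Cx z v}.Finite)
    (Nb : V → Set V) (A : Set V) (hA : A ⊆ P) (hNb : ∀ u ∈ A, (Nb u).Infinite) :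
    ∃ c : V → Bool, Rep Γ T K c ∧ (∀ v, v ∉ T → v ∉ P → c v = false) ∧
      ∀ u ∈ A, {v | v ∈ Nb u ∧ glu T P Cx c v ≠ c u}.Infinite := by
  have hcomp : CompactSpace (TH Γ T P K f) :=
    isCompact_iff_compactSpace.1 isClosed_TH.isCompact
  have hne : Nonempty (TH Γ T P K f) := h.nonempty_TH.to_subtype
  have hfin : ∀ (u : V) (t : TH Γ T P K f),
      {v | (tog Γ T P K f (f u) t.1).2 0 v ≠ t.1.2 0 v}.Finite := by
    intro u t
    have h1 : ({v | down Γ T P K f (Function.update t.1.1 (f u) (!(t.1.1 (f u))))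
        (t.1.2 (f u + 1)) 0 (f u + 1) v ≠ t.1.2 (f u + 1) v}).Finite := down_finite h (f u + 1) 0
    have h2 : ({v | down Γ T P K f t.1.1 (t.1.2 (f u + 1)) 0 (f u + 1) v
        ≠ t.1.2 (f u + 1) v}).Finite := down_finite h (f u + 1) 0
    have h3 := th_down t.2 (f u + 1) 0
    rw [zero_add] at h3
    rw [← h3] at h2
    refine (h1.union h2).subset ?_
    intro v hv
    by_contra hn
    rw [Set.mem_union, not_or] at hn
    have e1 : down Γ T P K f (Function.update t.1.1 (f u) (!(t.1.1 (f u)))) (t.1.2 (f u + 1))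
        0 (f u + 1) v = t.1.2 (f u + 1) v := by
      by_contra h4; exact hn.1 h4
    have e2 : t.1.2 0 v = t.1.2 (f u + 1) v := by
      by_contra h4; exact hn.2 h4
    refine hv ?_
    show (tog Γ T P K f (f u) t.1).2 0 v = t.1.2 0 v
    rw [e2]
    show (if 0 ≤ f u then down Γ T P K f (Function.update t.1.1 (f u) (!(t.1.1 (f u))))
      (t.1.2 (f u + 1)) 0 (f u + 1 - 0) else t.1.2 0) v = _
    rw [if_pos (Nat.zero_le _), Nat.sub_zero]
    exact e1
  let zt : TH Γ T P K f → V → Bool := fun t u => if u ∈ P then t.1.1 (f u) else false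
  have hzt : Continuous zt := by
    refine continuous_pi fun u => ?_
    by_cases hu : u ∈ P
    · simp only [zt, hu, if_true]
      exact (continuous_apply (f u)).comp (continuous_fst.comp continuous_subtype_val)
    · simp only [zt, hu, if_false]
      exact continuous_const
  let Col : V → TH Γ T P K f → Bool := fun v t =>
    if v ∈ T ∨ v ∈ P then t.1.2 0 v else Cx (zt t) v
  have hCol : ∀ v, Continuous (Col v) := by
    intro v
    by_cases hv : v ∈ T ∨ v ∈ P
    · simp only [Col, hv, if_true]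
      exact (continuous_apply v).comp ((continuous_apply 0).comp
        (continuous_snd.comp continuous_subtype_val))
    · simp only [Col, hv, if_false]
      obtain ⟨S, hS⟩ := hC1 v
      exact (cont_of_local (fun z => Cx z v) S hS).comp hzt
  have hColf : ∀ u ∈ A, ∀ t : TH Γ T P K f,
      {v | Col v ⟨tog Γ T P K f (f u) t.1, h.tog_mem t.2 (f u)⟩ ≠ Col v t}.Finite := by
    intro u hu t
    have hz : zt ⟨tog Γ T P K f (f u) t.1, h.tog_mem t.2 (f u)⟩
        = Function.update (zt t) u (!(zt t u)) := by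
      funext w
      by_cases hwu : w = u
      · rw [hwu, Function.update_self]
        show (if u ∈ P then Function.update t.1.1 (f u) (!(t.1.1 (f u))) (f u) else false)
          = !(if u ∈ P then t.1.1 (f u) else false)
        rw [if_pos (hA hu), if_pos (hA hu), Function.update_self]
      · rw [Function.update_of_ne hwu]
        show (if w ∈ P then Function.update t.1.1 (f u) (!(t.1.1 (f u))) (f w) else false)
          = if w ∈ P then t.1.1 (f w) else false
        rw [Function.update_of_ne (fun h' => hwu (h.inj h'))]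
    refine ((hfin u t).union (hC2 u (hA hu) (zt t))).subset ?_
    intro v hv
    by_cases hvT : v ∈ T ∨ v ∈ P
    · left
      have hv' : (if v ∈ T ∨ v ∈ P then (tog Γ T P K f (f u) t.1).2 0 v
        else Cx (zt ⟨tog Γ T P K f (f u) t.1, h.tog_mem t.2 (f u)⟩) v)
        ≠ (if v ∈ T ∨ v ∈ P then t.1.2 0 v else Cx (zt t) v) := hv
      rw [if_pos hvT, if_pos hvT] at hv'
      exact hv'
    · right
      have hv' : (if v ∈ T ∨ v ∈ P then (tog Γ T P K f (f u) t.1).2 0 v
        else Cx (zt ⟨tog Γ T P K f (f u) t.1, h.tog_mem t.2 (f u)⟩) v)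
        ≠ (if v ∈ T ∨ v ∈ P then t.1.2 0 v else Cx (zt t) v) := hv
      rw [if_neg hvT, if_neg hvT, hz] at hv'
      exact hv'
  obtain ⟨t, ht⟩ := UnfE.select (Θ := TH Γ T P K f)
    (g := fun u t => ⟨tog Γ T P K f (f u) t.1, h.tog_mem t.2 (f u)⟩)
    (z := fun u t => t.1.1 (f u)) (Col := Col) (Nb := Nb) (A := A)
    (fun u _ => ((continuous_tog (f u)).comp continuous_subtype_val).subtype_mk _)
    (fun u _ => (continuous_apply (f u)).comp (continuous_fst.comp continuous_subtype_val))
    (fun u _ t => by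
      show Function.update t.1.1 (f u) (!(t.1.1 (f u))) (f u) = _
      rw [Function.update_self])
    (fun u _ w _ huw t => by
      show Function.update t.1.1 (f u) (!(t.1.1 (f u))) (f w) = _
      rw [Function.update_of_ne (fun h' => huw (h.inj h').symm)])
    hCol hColf hNb
  refine ⟨t.1.2 0, ⟨(t.2 0).1.2.1, ?_⟩, (t.2 0).1.2.2.2, fun u hu => ?_⟩
  · intro m S hS
    obtain ⟨k, hk, hSk⟩ := h.bk_exh S hS m
    refine ⟨2 * sd Γ T P f k, Bk Γ T P K f k ∪ Kn Γ T P f k,
      hSk.trans Finset.subset_union_left, h.bkn_sub k, ?_⟩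
    intro D hD
    have h1 := h.th_excess t.2 k D ((hD.trans (Ly_mono ?_)).trans (ly_sub_bk k))
    · push_cast
      exact h1
    · unfold Mk
      omega
  · have h1 := ht u hu
    have h2 := h.th_petal t.2 (hA hu)
    have hzz : zt t = pz P (t.1.2 0) := by
      funext w
      show (if w ∈ P then t.1.1 (f w) else false) = if w ∈ P then t.1.2 0 w else false
      by_cases hw : w ∈ P
      · rw [if_pos hw, if_pos hw, h.th_petal t.2 hw]
      · rw [if_neg hw, if_neg hw]
    refine h1.mono ?_
    rintro v ⟨hv1, hv2⟩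
    refine ⟨hv1, ?_⟩
    rw [h2]
    have hv3 : (if v ∈ T ∨ v ∈ P then t.1.2 0 v else Cx (zt t) v) ≠ t.1.1 (f u) := hv2
    rw [hzz] at hv3
    exact hv3

end UnfW
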